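import Mathlib

/-!
# Lists of natural numbers: a Borel choice off a null and meagre set
-/

set_option autoImplicit false

open MeasureTheory Set Filter TopologicalSpace
open scoped ENNReal Topology

noncomputable section

namespace H52.ML

variable {X : Type} [TopologicalSpace X] [SecondCountableTopology X]

/-- a Borel set which is nonmeagre in every nonempty open set is residual -/
theorem residual_of_dense_nonmeagre [MeasurableSpace X] [BorelSpace X] (V : Set X)
    (hV : MeasurableSet V)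
    (h : ∀ U ∈ countableBasis X, U.Nonempty → ¬ IsMeagre (U ∩ V)) : V ∈ residual X := by
  obtain ⟨O, hO, hVO⟩ := hV.compl.residualEq_isOpen
  have hdiff : IsMeagre (O ∩ V) := by
    have h1 : ∀ᶠ x in residual X, (x ∈ Vᶜ ↔ x ∈ O) := hVO.mem_iff
    unfold IsMeagre
    filter_upwards [h1] with x hx hx2
    exact (hx.2 hx2.1) hx2.2
  by_cases hne : O.Nonempty
  · exfalso
    obtain ⟨x, hx⟩ := hne
    obtain ⟨U, hU, hxU, hUO⟩ := (isBasis_countableBasis X).exists_subset_of_mem_open hx hO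
    exact h U hU ⟨x, hxU⟩ (hdiff.mono (inter_subset_inter_left _ hUO))
  · rw [Set.not_nonempty_iff_eq_empty] at hne
    have h1 : ∀ᶠ x in residual X, (x ∈ Vᶜ ↔ x ∈ O) := hVO.mem_iff
    filter_upwards [h1] with x hx
    by_contra hxV
    have := hx.1 hxV
    rw [hne] at this
    exact this

/-- some elements of the list in `[a, b)` -/
def Hit (L : X → Set ℕ) (a b : ℕ) : Set X := {x | ∃ n ∈ L x, a ≤ n ∧ n < b}

theorem Hit_mono (L : X → Set ℕ) (a : ℕ) : Monotone (Hit L a) := by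
  rintro b b' hb x ⟨n, hn, h4, h5⟩
  exact ⟨n, hn, h4, lt_of_lt_of_le h5 hb⟩

theorem iUnion_Hit (L : X → Set ℕ) (hinf : ∀ x, (L x).Infinite) (a : ℕ) :
    ⋃ b, Hit L a b = univ := by
  rw [eq_univ_iff_forall]
  intro x
  obtain ⟨n, hn, han⟩ := (hinf x).exists_gt a
  rw [mem_iUnion]
  exact ⟨n + 1, n, hn, han.le, Nat.lt_succ_self n⟩

theorem measurable_Hit [MeasurableSpace X] (L : X → Set ℕ)
    (hL : ∀ n, MeasurableSet {x | n ∈ L x}) (a b : ℕ) : MeasurableSet (Hit L a b) := by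
  have : Hit L a b = ⋃ n ∈ Ico a b, {x | n ∈ L x} := by
    ext x
    simp only [Hit, mem_ofPred_eq, mem_iUnion, mem_Ico, exists_prop]
    exact ⟨fun ⟨n, h1, h2⟩ => ⟨n, h2, h1⟩, fun ⟨n, h1, h2⟩ => ⟨n, h2, h1⟩⟩
  rw [this]
  exact MeasurableSet.biUnion (Set.to_countable _) (fun n _ => hL n)

theorem exists_blocks [BaireSpace X] [MeasurableSpace X] (μ : Measure X) [IsFiniteMeasure μ]
    (L : X → Set ℕ) (hinf : ∀ x, (L x).Infinite) (hL : ∀ n, MeasurableSet {x | n ∈ L x}) :
    ∃ W : ℕ → Set ℕ, (∀ m m', m ≠ m' → Disjoint (W m) (W m')) ∧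
      (∀ m, ∀ U ∈ countableBasis X, U.Nonempty →
        ¬ IsMeagre (U ∩ {x | ∃ n ∈ L x, n ∈ W m})) ∧
      ∀ᵐ x ∂μ, ∀ m, ∃ n ∈ L x, n ∈ W m := by
  have hcount : (countableBasis X).Countable := countable_countableBasis X
  obtain ⟨u, hu⟩ : ∃ u : ℕ → Set X, (∀ i, u i ∈ countableBasis X ∨ u i = ∅) ∧
      ∀ U ∈ countableBasis X, ∃ i, u i = U := by
    rcases (countableBasis X).eq_empty_or_nonempty with he | hne
    · exact ⟨fun _ => ∅, fun i => Or.inr rfl, fun U hU => by simp [he] at hU⟩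
    · obtain ⟨u, hu⟩ := hcount.exists_eq_range hne
      refine ⟨u, fun i => Or.inl (by rw [hu]; exact mem_range_self i), fun U hU => ?_⟩
      rw [hu] at hU
      exact hU
  -- one block
  have hblock : ∀ (k i a : ℕ), ∃ b, a ≤ b ∧ μ (Hit L a b)ᶜ ≤ (2⁻¹ : ℝ≥0∞) ^ k ∧
      ((u i).Nonempty → ¬ IsMeagre (u i ∩ Hit L a b)) := by
    intro k i a
    have hb1 : ∃ b, (u i).Nonempty → ¬ IsMeagre (u i ∩ Hit L a b) := by
      by_cases hn : (u i).Nonempty
      · have hopen : IsOpen (u i) := by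
          rcases hu.1 i with h | h
          · exact isOpen_of_mem_countableBasis h
          · rw [h]; exact isOpen_empty
        have h1 : ¬ IsMeagre (u i) := not_isMeagre_of_isOpen hopen hn
        have h2 : u i = ⋃ b, (u i ∩ Hit L a b) := by
          rw [← inter_iUnion, iUnion_Hit L hinf, inter_univ]
        have h3 : ∃ b, ¬ IsMeagre (u i ∩ Hit L a b) := by
          by_contra hc
          push Not at hc
          apply h1
          rw [h2]
          exact isMeagre_iUnion hc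
        obtain ⟨b, hb⟩ := h3
        exact ⟨b, fun _ => hb⟩
      · exact ⟨0, fun h => absurd h hn⟩
    have hb2 : ∃ b, μ (Hit L a b)ᶜ ≤ (2⁻¹ : ℝ≥0∞) ^ k := by
      have hanti : Antitone (fun b => (Hit L a b)ᶜ) := fun b b' h =>
        compl_subset_compl.2 (Hit_mono L a h)
      have h4 := tendsto_measure_iInter_atTop (μ := μ) (s := fun b => (Hit L a b)ᶜ)
        (fun b => (measurable_Hit L hL a b).compl.nullMeasurableSet) hanti ⟨0, by finiteness⟩
      have h5 : ⋂ b, (Hit L a b)ᶜ = ∅ := by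
        rw [← compl_iUnion, iUnion_Hit L hinf, compl_univ]
      rw [h5, measure_empty] at h4
      have h6 : (0 : ℝ≥0∞) < 2⁻¹ ^ k := by
        rw [pos_iff_ne_zero]
        exact pow_ne_zero _ (by simp)
      exact (h4.eventually (ge_mem_nhds h6)).exists
    obtain ⟨b1, hb1⟩ := hb1
    obtain ⟨b2, hb2⟩ := hb2
    refine ⟨max a (max b1 b2), le_max_left _ _, ?_, fun hn hm => ?_⟩
    · refine le_trans (measure_mono (compl_subset_compl.2 (Hit_mono L a ?_))) hb2
      exact le_trans (le_max_right _ _) (le_max_right _ _)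
    · refine hb1 hn (hm.mono (inter_subset_inter_right _ (Hit_mono L a ?_)))
      exact le_trans (le_max_left _ _) (le_max_right _ _)
  choose B hB1 hB2 hB3 using hblock
  let as : ℕ → ℕ := fun k => Nat.rec 0 (fun k a => B k (Nat.unpair k).2 a) k
  have has : ∀ k, as (k + 1) = B k (Nat.unpair k).2 (as k) := fun k => rfl
  have hmono : Monotone as := monotone_nat_of_le_succ (fun k => by rw [has]; exact hB1 _ _ _)
  refine ⟨fun m => {n | ∃ k, (Nat.unpair k).1 = m ∧ as k ≤ n ∧ n < as (k + 1)}, ?_, ?_, ?_⟩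
  · intro m m' hmm
    rw [Set.disjoint_left]
    rintro n ⟨k, hk, h1, h2⟩ ⟨l, hl, h3, h4⟩
    rcases lt_trichotomy k l with h | h | h
    · have := hmono (Nat.succ_le_of_lt h)
      simp only [Nat.succ_eq_add_one] at this
      omega
    · exact hmm (hk.symm.trans ((congrArg (fun k => (Nat.unpair k).1) h).trans hl))
    · have := hmono (Nat.succ_le_of_lt h)
      simp only [Nat.succ_eq_add_one] at this
      omega
  · intro m U hU hUne hm
    obtain ⟨i, rfl⟩ := hu.2 U hU
    refine hB3 (Nat.pair m i) i (as (Nat.pair m i)) hUne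
      (hm.mono (inter_subset_inter_right _ ?_))
    rintro x ⟨n, hn, h1, h2⟩
    refine ⟨n, hn, Nat.pair m i, by simp, h1, ?_⟩
    rw [has]
    simpa using h2
  · have hgeo : (∑' k : ℕ, (2⁻¹ : ℝ≥0∞) ^ k) ≠ ∞ := by
      rw [ENNReal.tsum_geometric]
      simp
    have b1 : ∀ᵐ x ∂μ, ∀ᶠ k in atTop, x ∉ (Hit L (as k) (as (k + 1)))ᶜ := by
      refine ae_eventually_notMem (ne_top_of_le_ne_top hgeo ?_)
      exact ENNReal.tsum_le_tsum (fun k => hB2 k (Nat.unpair k).2 (as k))
    filter_upwards [b1] with x hx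
    intro m
    obtain ⟨K, hK⟩ := eventually_atTop.1 hx
    have h7 := hK _ (Nat.right_le_pair m K)
    rw [mem_compl_iff, not_not] at h7
    obtain ⟨n, hn, h8, h9⟩ := h7
    exact ⟨n, hn, Nat.pair m K, by simp, h8, h9⟩

/-- **Borel choice from infinite lists of natural numbers, off a null and meagre set.** -/
theorem choice_nat [BaireSpace X] [MeasurableSpace X] [BorelSpace X] (μ : Measure X)
    [SFinite μ] (L : X → Set ℕ) (hinf : ∀ x, (L x).Infinite)
    (hL : ∀ n, MeasurableSet {x | n ∈ L x}) (h : X → ℕ) (hh : Measurable h) :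
    ∃ (c : X → ℕ) (Z : Set X), Measurable c ∧ MeasurableSet Z ∧ μ Z = 0 ∧ IsMeagre Z ∧
      (∀ x, c x ∈ L x) ∧ ∀ x ∉ Z, ∀ y ∉ Z, h x ≠ h y → c x ≠ c y := by
  classical
  obtain ⟨W, hdis, hW, hae⟩ := exists_blocks μ.toFinite L hinf hL
  rw [ae_toFinite] at hae
  have hV : ∀ m, MeasurableSet {x | ∃ n ∈ L x, n ∈ W m} := by
    intro m
    have : {x | ∃ n ∈ L x, n ∈ W m} = ⋃ n ∈ W m, {x | n ∈ L x} := by
      ext x
      simp only [mem_ofPred_eq, mem_iUnion, exists_prop]
      exact ⟨fun ⟨n, h1, h2⟩ => ⟨n, h2, h1⟩, fun ⟨n, h1, h2⟩ => ⟨n, h2, h1⟩⟩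
    rw [this]
    exact MeasurableSet.biUnion (Set.to_countable _) (fun n _ => hL n)
  have hres : ∀ m, {x | ∃ n ∈ L x, n ∈ W m} ∈ residual X := fun m =>
    residual_of_dense_nonmeagre _ (hV m) (hW m)
  let Z : Set X := (⋂ m, {x | ∃ n ∈ L x, n ∈ W m})ᶜ
  have hZ : MeasurableSet Z := (MeasurableSet.iInter hV).compl
  have hZm : IsMeagre Z := by
    unfold IsMeagre
    simp only [Z, compl_compl]
    exact countable_iInter_mem.2 hres
  have hZ0 : μ Z = 0 := by
    refine measure_mono_null ?_ (ae_iff.1 hae)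
    intro x hx hx'
    exact hx (mem_iInter.2 hx')
  have hp : ∀ x, ∃ n, n ∈ L x ∧ (n ∈ W (h x) ∨ x ∈ Z) := by
    intro x
    by_cases hx : x ∈ Z
    · obtain ⟨n, hn⟩ := (hinf x).nonempty
      exact ⟨n, hn, Or.inr hx⟩
    · have hx' : x ∈ ⋂ m, {x | ∃ n ∈ L x, n ∈ W m} := by
        by_contra hc; exact hx hc
      obtain ⟨n, hn, hn2⟩ := mem_iInter.1 hx' (h x)
      exact ⟨n, hn, Or.inl hn2⟩
  have hsec : ∀ n, MeasurableSet {x | n ∈ W (h x)} := by
    intro n
    have : {x | n ∈ W (h x)} = h ⁻¹' {m | n ∈ W m} := rfl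
    rw [this]
    exact hh (Set.to_countable _).measurableSet
  refine ⟨fun x => Nat.find (hp x), Z,
    measurable_find hp (fun n => (hL n).inter ((hsec n).union hZ)), hZ, hZ0, hZm, ?_, ?_⟩
  · intro x
    exact (Nat.find_spec (hp x)).1
  · intro x hx y hy hxy hc
    have h1 : Nat.find (hp x) ∈ W (h x) := (Nat.find_spec (hp x)).2.resolve_right hx
    have h2 : Nat.find (hp y) ∈ W (h y) := (Nat.find_spec (hp y)).2.resolve_right hy
    have hc' : Nat.find (hp x) = Nat.find (hp y) := hc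
    rw [← hc'] at h2
    exact Set.disjoint_left.1 (hdis _ _ hxy) h1 h2

end H52.ML
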