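import Mathlib

/-!
# Random subsets: the averaging step for measurable list colourings
-/

set_option autoImplicit false

open MeasureTheory Set Filter
open scoped ENNReal

noncomputable section

namespace H52.ML

/-- a coin with bias `p` -/
def coin (p : ℝ≥0∞) : Measure Bool :=
  p • Measure.dirac true + (1 - p) • Measure.dirac false

theorem coin_true (p : ℝ≥0∞) : coin p {true} = p := by
  simp [coin]

theorem coin_false (p : ℝ≥0∞) : coin p {false} = 1 - p := by
  simp [coin]

theorem coin_univ {p : ℝ≥0∞} (hp : p ≤ 1) : coin p univ = 1 := by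
  simp [coin, hp]

theorem coin_prob {p : ℝ≥0∞} (hp : p ≤ 1) : IsProbabilityMeasure (coin p) :=
  ⟨coin_univ hp⟩

variable {A : Type} [Fintype A] [DecidableEq A]

theorem pi_false {p : ℝ≥0∞} (hp : p ≤ 1) (S : Finset A) :
    (Measure.pi (fun _ : A => coin p)) {R | ∀ a ∈ S, R a = false} = (1 - p) ^ S.card := by
  have := coin_prob hp
  have h1 : {R : A → Bool | ∀ a ∈ S, R a = false} =
      Set.pi univ (fun a => if a ∈ S then ({false} : Set Bool) else univ) := by
    ext R
    simp only [mem_ofPred_eq, Set.mem_pi, mem_univ, true_implies]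
    refine forall_congr' (fun a => ?_)
    by_cases h : a ∈ S <;> simp [h]
  rw [h1, Measure.pi_pi]
  have h2 : ∀ a : A, (coin p) (if a ∈ S then ({false} : Set Bool) else univ) =
      if a ∈ S then (1 - p) else 1 := by
    intro a
    by_cases h : a ∈ S
    · simp only [h, if_true, coin_false]
    · simp only [h, if_false, coin_univ hp]
  simp only [h2]
  rw [Finset.prod_ite_mem, Finset.univ_inter, Finset.prod_const]

theorem pi_true {p : ℝ≥0∞} (hp : p ≤ 1) (a : A) :
    (Measure.pi (fun _ : A => coin p)) {R | R a = true} = p := by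
  have := coin_prob hp
  have h1 : {R : A → Bool | R a = true} =
      Set.pi univ (fun b => if b = a then ({true} : Set Bool) else univ) := by
    ext R
    simp only [mem_ofPred_eq, Set.mem_pi, mem_univ, true_implies]
    constructor
    · intro h b
      by_cases hb : b = a
      · subst hb; simp [h]
      · simp [hb]
    · intro h
      have := h a
      simpa using this
  rw [h1, Measure.pi_pi]
  have h2 : ∀ b : A, (coin p) (if b = a then ({true} : Set Bool) else univ) =
      if b = a then p else 1 := by
    intro b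
    by_cases h : b = a
    · simp only [h, if_true, coin_true]
    · simp only [h, if_false, coin_univ hp]
  simp only [h2]
  rw [Finset.prod_ite_eq' Finset.univ a (fun _ => p)]
  simp

theorem swap {Ω X : Type} [MeasurableSpace Ω] [MeasurableSpace X] (ρ : Measure Ω) [SFinite ρ]
    (μ : Measure X) [SFinite μ] (s : Set (Ω × X)) (hs : MeasurableSet s) :
    ∫⁻ R, μ {x | (R, x) ∈ s} ∂ρ = ∫⁻ x, ρ {R | (R, x) ∈ s} ∂μ := by
  have h1 := Measure.prod_apply (μ := ρ) (ν := μ) hs
  have h2 := Measure.prod_apply_symm (μ := ρ) (ν := μ) hs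
  exact h1.symm.trans h2

theorem meas_of_sections {Ω X : Type} [MeasurableSpace Ω] [Countable Ω]
    [MeasurableSingletonClass Ω] [MeasurableSpace X] (s : Set (Ω × X))
    (hs : ∀ R, MeasurableSet {x | (R, x) ∈ s}) : MeasurableSet s := by
  have h : s = ⋃ R : Ω, ({R} : Set Ω) ×ˢ {x | (R, x) ∈ s} := by
    ext ⟨R, x⟩
    simp
  rw [h]
  exact MeasurableSet.iUnion (fun R => (measurableSet_singleton R).prod (hs R))

theorem avg {X : Type} [MeasurableSpace X] [MeasurableSpace A] [MeasurableSingletonClass A]
    (μ : Measure X) [IsFiniteMeasure μ]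
    (a : ℕ → X → A) (ha : ∀ i, Measurable (a i)) (n N : ℕ) (p : ℝ≥0∞) (hp : p ≤ 1) :
    ∃ S : Set A, μ {x | ∃ i < n, a i x ∈ S} + μ {x | ∀ i < N, a i x ∉ S} ≤
      n * p * μ univ + ((1 - p) ^ N * μ univ + μ {x | ¬ InjOn (fun i => a i x) (Iio N)}) := by
  have := coin_prob hp
  set ρ : Measure (A → Bool) := Measure.pi (fun _ : A => coin p) with hρ
  have hm1 : ∀ i (b : A), MeasurableSet {x | a i x = b} := fun i b =>
    (ha i) (measurableSet_singleton b)
  have hmS : ∀ i (T : Set A), MeasurableSet {x | a i x ∈ T} := fun i T =>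
    (ha i) (Set.toFinite T).measurableSet
  let s1 : Set ((A → Bool) × X) := {q | ∃ i < n, q.1 (a i q.2) = true}
  let s2 : Set ((A → Bool) × X) := {q | ∀ i < N, q.1 (a i q.2) = false}
  have hs1 : MeasurableSet s1 := by
    refine meas_of_sections _ (fun R => ?_)
    have : {x | (R, x) ∈ s1} = ⋃ i ∈ Iio n, {x | a i x ∈ {b | R b = true}} := by
      ext x; simp [s1]
    rw [this]
    exact MeasurableSet.biUnion (Set.to_countable _) (fun i _ => hmS i _)
  have hs2 : MeasurableSet s2 := by
    refine meas_of_sections _ (fun R => ?_)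
    have : {x | (R, x) ∈ s2} = ⋂ i ∈ Iio N, {x | a i x ∈ {b | R b = false}} := by
      ext x; simp [s2]
    rw [this]
    exact MeasurableSet.biInter (Set.to_countable _) (fun i _ => hmS i _)
  have e1 : ∫⁻ R, μ {x | (R, x) ∈ s1} ∂ρ ≤ n * p * μ univ := by
    rw [swap ρ μ s1 hs1]
    calc ∫⁻ x, ρ {R | (R, x) ∈ s1} ∂μ ≤ ∫⁻ _, (n * p : ℝ≥0∞) ∂μ := by
          refine lintegral_mono (fun x => ?_)
          have : {R : A → Bool | (R, x) ∈ s1} ⊆ ⋃ i ∈ Finset.range n, {R | R (a i x) = true} := by
            intro R hR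
            obtain ⟨i, hi, h⟩ := hR
            simp only [mem_iUnion, Finset.mem_range]
            exact ⟨i, hi, h⟩
          calc ρ {R : A → Bool | (R, x) ∈ s1}
              ≤ ρ (⋃ i ∈ Finset.range n, {R | R (a i x) = true}) := measure_mono this
            _ ≤ ∑ i ∈ Finset.range n, ρ {R | R (a i x) = true} := measure_biUnion_finset_le _ _
            _ = ∑ i ∈ Finset.range n, p := Finset.sum_congr rfl (fun i _ => pi_true hp _)
            _ = n * p := by simp
      _ = n * p * μ univ := by rw [lintegral_const]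
  set Z : Set X := {x | ¬ InjOn (fun i => a i x) (Iio N)} with hZ
  have hZm : MeasurableSet Z := by
    have : Z = ⋃ i ∈ Iio N, ⋃ j ∈ Iio N, {x | a i x = a j x ∧ i ≠ j} := by
      ext x
      simp only [hZ, InjOn, mem_ofPred_eq, mem_iUnion, exists_prop]
      push Not
      rfl
    rw [this]
    refine MeasurableSet.biUnion (Set.to_countable _) (fun i _ => ?_)
    refine MeasurableSet.biUnion (Set.to_countable _) (fun j _ => ?_)
    have h3 : {x | a i x = a j x ∧ i ≠ j} =
        (⋃ b : A, ({x | a i x = b} ∩ {x | a j x = b})) ∩ {x | i ≠ j} := by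
      ext x
      simp only [mem_ofPred_eq, mem_inter_iff, mem_iUnion]
      constructor
      · rintro ⟨h, h'⟩; exact ⟨⟨_, rfl, h.symm⟩, h'⟩
      · rintro ⟨⟨b, h1, h2⟩, h'⟩; exact ⟨h1.trans h2.symm, h'⟩
    rw [h3]
    exact (MeasurableSet.iUnion (fun b => (hm1 i b).inter (hm1 j b))).inter
      (MeasurableSet.const _)
  have e2 : ∫⁻ R, μ {x | (R, x) ∈ s2} ∂ρ ≤ (1 - p) ^ N * μ univ + μ Z := by
    rw [swap ρ μ s2 hs2]
    calc ∫⁻ x, ρ {R | (R, x) ∈ s2} ∂μ ≤ ∫⁻ x, ((1 - p) ^ N + Z.indicator 1 x) ∂μ := by
          refine lintegral_mono (fun x => ?_)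
          by_cases hx : x ∈ Z
          · have : ρ {R | (R, x) ∈ s2} ≤ 1 := prob_le_one
            refine this.trans ?_
            simp [hx]
          · have hinj : InjOn (fun i => a i x) (Iio N) := by
              by_contra h; exact hx h
            have h4 : {R | (R, x) ∈ s2} =
                {R : A → Bool | ∀ b ∈ (Finset.range N).image (fun i => a i x), R b = false} := by
              ext R
              simp [s2]
            have h5 : ((Finset.range N).image (fun i => a i x)).card = N := by
              rw [Finset.card_image_of_injOn, Finset.card_range]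
              intro i hi j hj h
              exact hinj (by simpa using hi) (by simpa using hj) h
            rw [h4, pi_false hp, h5]
            exact le_self_add
      _ = (1 - p) ^ N * μ univ + μ Z := by
          rw [lintegral_add_left measurable_const, lintegral_const,
            lintegral_indicator_one hZm]
  have hT : Measurable (fun R : A → Bool => μ {x | (R, x) ∈ s1} + μ {x | (R, x) ∈ s2}) :=
    Measurable.of_discrete
  obtain ⟨R, hR⟩ := exists_le_lintegral (μ := ρ) hT.aemeasurable
  refine ⟨{b | R b = true}, ?_⟩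
  have h6 : {x | ∀ i < N, a i x ∉ {b | R b = true}} = {x | (R, x) ∈ s2} := by
    ext x; simp [s2]
  have h7 : {x | ∃ i < n, a i x ∈ {b | R b = true}} = {x | (R, x) ∈ s1} := by
    ext x; simp [s1]
  rw [h6, h7]
  refine hR.trans ?_
  rw [lintegral_add_left Measurable.of_discrete]
  exact add_le_add e1 e2

end H52.ML
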