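import Mathlib
import Pool.Agent.H52.ML.Hash

/-!
# Disjoint sets meeting almost every infinite list
-/

set_option autoImplicit false

open MeasureTheory Set Filter
open scoped ENNReal Topology

noncomputable section

namespace H52.ML

theorem exists_bias (c ε : ℝ≥0∞) (hc : c ≠ ∞) (hε : ε ≠ 0) :
    ∃ p : ℝ≥0∞, p ≠ 0 ∧ p ≤ 1 ∧ c * p ≤ ε := by
  refine ⟨min 1 (ε / (c + 1)), ?_, min_le_left _ _, ?_⟩
  · rw [← pos_iff_ne_zero, lt_min_iff]
    exact ⟨one_pos, ENNReal.div_pos hε (by finiteness)⟩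
  · calc c * min 1 (ε / (c + 1)) ≤ (c + 1) * (ε / (c + 1)) := by
          gcongr
          · exact le_self_add
          · exact min_le_right _ _
      _ ≤ ε := ENNReal.mul_div_le

theorem exists_pow (c ε p : ℝ≥0∞) (hc : c ≠ ∞) (hε : ε ≠ 0) (hp : p ≠ 0) (n : ℕ) :
    ∃ N : ℕ, n ≤ N ∧ (1 - p) ^ N * c ≤ ε := by
  have h1 : (1 : ℝ≥0∞) - p < 1 := ENNReal.sub_lt_self (by finiteness) one_ne_zero hp
  have h2 := ENNReal.tendsto_pow_atTop_nhds_zero_of_lt_one h1
  have h3 := ENNReal.Tendsto.mul_const (b := c) h2 (Or.inr hc)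
  rw [zero_mul] at h3
  have h4 := (h3.eventually (ge_mem_nhds (pos_iff_ne_zero.2 hε))).and (eventually_ge_atTop n)
  obtain ⟨N, hN, hn⟩ := h4.exists
  exact ⟨N, hn, hN⟩

theorem step {X Y : Type} [MeasurableSpace X] [MeasurableSpace Y]
    [MeasurableSpace.CountablySeparated Y] (μ : Measure X) [IsFiniteMeasure μ] (g : ℕ → X → Y)
    (hg : ∀ i, Measurable (g i)) (hinj : ∀ x, Function.Injective (fun i => g i x)) (n : ℕ)
    (ε : ℝ≥0∞) (hε : ε ≠ 0) :
    ∃ N : ℕ, n ≤ N ∧ ∃ M : Set Y, MeasurableSet M ∧ μ {x | ∃ i < n, g i x ∈ M} ≤ ε ∧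
      μ {x | ∀ i < N, g i x ∉ M} ≤ ε := by
  have h3 : ε / 3 ≠ 0 := (ENNReal.div_pos hε (by finiteness)).ne'
  obtain ⟨p, hp0, hp1, hp⟩ := exists_bias ((n : ℝ≥0∞) * μ univ) (ε / 3)
    (by finiteness) h3
  obtain ⟨N, hnN, hN⟩ := exists_pow (μ univ) (ε / 3) p (by finiteness) h3 hp0 n
  obtain ⟨f, hf, hfi⟩ := MeasurableSpace.measurable_injection_nat_bool_of_countablySeparated Y
  let b : ∀ L : ℕ, ℕ → X → (Fin L → Bool) := fun L i x k => f (g i x) k
  let Z : ℕ → Set X := fun L => {x | ¬ InjOn (fun i => b L i x) (Iio N)}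
  have hbm : ∀ L i, Measurable (b L i) := by
    intro L i
    refine measurable_pi_iff.2 (fun k => ?_)
    exact (measurable_pi_apply (k : ℕ)).comp (hf.comp (hg i))
  have hZm : ∀ L, MeasurableSet (Z L) := by
    intro L
    have : Z L = ⋃ i ∈ Iio N, ⋃ j ∈ Iio N, {x | b L i x = b L j x ∧ i ≠ j} := by
      ext x
      simp only [Z, InjOn, mem_ofPred_eq, mem_iUnion, exists_prop]
      push Not
      rfl
    rw [this]
    refine MeasurableSet.biUnion (Set.to_countable _) (fun i _ => ?_)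
    refine MeasurableSet.biUnion (Set.to_countable _) (fun j _ => ?_)
    exact (measurableSet_eq_fun (hbm L i) (hbm L j)).inter (MeasurableSet.const _)
  have hanti : Antitone Z := by
    intro L L' hLL x hx
    simp only [Z, InjOn, mem_ofPred_eq] at hx ⊢
    intro h
    apply hx
    intro i hi j hj hij
    apply h hi hj
    funext k
    have := congrFun hij (Fin.castLE hLL k)
    exact this
  have hempty : ⋂ L, Z L = ∅ := by
    ext x
    simp only [mem_iInter, mem_empty_iff_false, iff_false, not_forall]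
    -- choose a level separating all pairs
    have h1 : ∀ i j : ℕ, i ≠ j → ∃ L, f (g i x) L ≠ f (g j x) L := by
      intro i j hij
      by_contra h
      push Not at h
      exact hij (hinj x (hfi (funext h)))
    choose! F hF using h1
    refine ⟨((Finset.range N ×ˢ Finset.range N).sup (fun q => F q.1 q.2)) + 1, ?_⟩
    simp only [Z, mem_ofPred_eq, not_not]
    intro i hi j hj hij
    by_contra hne
    have h2 : F i j ≤ (Finset.range N ×ˢ Finset.range N).sup (fun q => F q.1 q.2) :=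
      Finset.le_sup (f := fun q : ℕ × ℕ => F q.1 q.2) (b := (i, j))
        (by simpa using ⟨hi, hj⟩)
    have h4 := congrFun hij ⟨F i j, Nat.lt_succ_of_le h2⟩
    exact hF i j hne h4
  have hlim : Tendsto (fun L => μ (Z L)) atTop (𝓝 0) := by
    have := tendsto_measure_iInter_atTop (μ := μ) (s := Z)
      (fun L => (hZm L).nullMeasurableSet) hanti ⟨0, by finiteness⟩
    rwa [hempty, measure_empty] at this
  obtain ⟨L, hL⟩ := (hlim.eventually (ge_mem_nhds (pos_iff_ne_zero.2 h3))).exists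
  classical
  obtain ⟨S, hS⟩ := avg μ (b L) (hbm L) n N p hp1
  have hm : Measurable (fun (y : Y) (k : Fin L) => f y k) := by
    refine measurable_pi_iff.2 (fun k => ?_)
    exact (measurable_pi_apply (k : ℕ)).comp hf
  refine ⟨N, hnN, (fun (y : Y) (k : Fin L) => f y k) ⁻¹' S,
    hm (Set.toFinite S).measurableSet, ?_, ?_⟩
  all_goals
    have hsum : (n : ℝ≥0∞) * p * μ univ + ((1 - p) ^ N * μ univ + μ (Z L)) ≤ ε := by
      calc (n : ℝ≥0∞) * p * μ univ + ((1 - p) ^ N * μ univ + μ (Z L))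
          = (n : ℝ≥0∞) * μ univ * p + ((1 - p) ^ N * μ univ + μ (Z L)) := by
            rw [mul_right_comm]
        _ ≤ ε / 3 + (ε / 3 + ε / 3) := by gcongr
        _ = ε := by rw [← add_assoc, ENNReal.add_thirds]
  · refine le_trans ?_ (hS.trans hsum)
    exact le_self_add
  · refine le_trans ?_ (hS.trans hsum)
    exact le_add_self

theorem exists_sets {X Y : Type} [MeasurableSpace X] [MeasurableSpace Y]
    [MeasurableSpace.CountablySeparated Y] (μ : Measure X) [IsFiniteMeasure μ] (g : ℕ → X → Y)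
    (hg : ∀ i, Measurable (g i)) (hinj : ∀ x, Function.Injective (fun i => g i x)) :
    ∃ W : ℕ → Set Y, (∀ m, MeasurableSet (W m)) ∧ (∀ m m', m ≠ m' → Disjoint (W m) (W m')) ∧
      ∀ᵐ x ∂μ, ∀ m, ∃ i, g i x ∈ W m := by
  have hst := fun k n : ℕ => step μ g hg hinj n ((2⁻¹ : ℝ≥0∞) ^ k) (by
    exact pow_ne_zero _ (by simp))
  choose N hN M hM h1 h2 using hst
  let Ns : ℕ → ℕ := fun k => Nat.rec 0 (fun k n => N k n) k
  have hNs : ∀ k, Ns (k + 1) = N k (Ns k) := fun k => rfl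
  have hmono : Monotone Ns := monotone_nat_of_le_succ (fun k => by rw [hNs]; exact hN _ _)
  let Ms : ℕ → Set Y := fun k => M k (Ns k)
  have hgeo : (∑' k : ℕ, (2⁻¹ : ℝ≥0∞) ^ k) ≠ ∞ := by
    rw [ENNReal.tsum_geometric]
    simp
  have b1 : ∀ᵐ x ∂μ, ∀ᶠ k in atTop, x ∉ {x | ∃ i < Ns k, g i x ∈ Ms k} := by
    refine ae_eventually_notMem (ne_top_of_le_ne_top hgeo ?_)
    exact ENNReal.tsum_le_tsum (fun k => h1 k (Ns k))
  have b2 : ∀ᵐ x ∂μ, ∀ᶠ k in atTop, x ∉ {x | ∀ i < Ns (k + 1), g i x ∉ Ms k} := by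
    refine ae_eventually_notMem (ne_top_of_le_ne_top hgeo ?_)
    exact ENNReal.tsum_le_tsum (fun k => h2 k (Ns k))
  refine ⟨fun m => ⋃ k ∈ {k : ℕ | (Nat.unpair k).1 = m}, (Ms k ∩ ⋂ l ∈ Ioi k, (Ms l)ᶜ),
    ?_, ?_, ?_⟩
  · intro m
    refine MeasurableSet.biUnion (Set.to_countable _) (fun k _ => (hM _ _).inter ?_)
    exact MeasurableSet.biInter (Set.to_countable _) (fun l _ => (hM _ _).compl)
  · intro m m' hmm
    rw [Set.disjoint_left]
    intro y hy hy'
    simp only [mem_iUnion, mem_inter_iff, mem_iInter, mem_Ioi, mem_compl_iff, exists_prop,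
      mem_ofPred_eq] at hy hy'
    obtain ⟨k, hk, hk1, hk2⟩ := hy
    obtain ⟨l, hl, hl1, hl2⟩ := hy'
    rcases lt_trichotomy k l with h | h | h
    · exact hk2 l h hl1
    · exact hmm (hk.symm.trans ((congrArg (fun k => (Nat.unpair k).1) h).trans hl))
    · exact hl2 k h hk1
  · filter_upwards [b1, b2] with x hx1 hx2
    intro m
    obtain ⟨K, hK⟩ := eventually_atTop.1 (hx1.and hx2)
    have hk : K ≤ Nat.pair m K := Nat.right_le_pair m K
    obtain ⟨_, h4⟩ := hK _ hk
    simp only [mem_ofPred_eq, not_forall, not_not] at h4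
    obtain ⟨i, hi, hi2⟩ := h4
    refine ⟨i, ?_⟩
    simp only [mem_iUnion, mem_inter_iff, mem_iInter, mem_Ioi, mem_compl_iff, exists_prop,
      mem_ofPred_eq]
    refine ⟨Nat.pair m K, by simp, hi2, ?_⟩
    intro l hl hgl
    obtain ⟨h5, _⟩ := hK l (hk.trans hl.le)
    exact h5 ⟨i, lt_of_lt_of_le hi (hmono hl), hgl⟩

/-- **Measurable choice from infinite lists, off a null set.** -/
theorem choice_ae {X Y : Type} [MeasurableSpace X] [MeasurableSpace Y]
    [MeasurableSpace.CountablySeparated Y] (μ : Measure X) [SFinite μ] (g : ℕ → X → Y)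
    (hg : ∀ i, Measurable (g i)) (hinj : ∀ x, Function.Injective (fun i => g i x))
    (h : X → ℕ) (hh : Measurable h) :
    ∃ (ι : X → ℕ) (Z : Set X), Measurable ι ∧ MeasurableSet Z ∧ μ Z = 0 ∧
      ∀ x ∉ Z, ∀ y ∉ Z, h x ≠ h y → g (ι x) x ≠ g (ι y) y := by
  classical
  obtain ⟨W, hW, hdis, hae⟩ := exists_sets μ.toFinite g hg hinj
  rw [ae_toFinite] at hae
  let Z : Set X := {x | ¬ ∃ i, g i x ∈ W (h x)}
  have hsec : ∀ i, MeasurableSet {x | g i x ∈ W (h x)} := by
    intro i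
    have : {x | g i x ∈ W (h x)} = ⋃ m, (h ⁻¹' {m} ∩ (g i) ⁻¹' (W m)) := by
      ext x
      simp
    rw [this]
    exact MeasurableSet.iUnion (fun m => (hh (measurableSet_singleton m)).inter (hg i (hW m)))
  have hZ : MeasurableSet Z := by
    have : Z = (⋃ i, {x | g i x ∈ W (h x)})ᶜ := by
      ext x
      simp [Z]
    rw [this]
    exact (MeasurableSet.iUnion hsec).compl
  have hp : ∀ x, ∃ i, (g i x ∈ W (h x) ∨ x ∈ Z) := by
    intro x
    by_cases hx : x ∈ Z
    · exact ⟨0, Or.inr hx⟩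
    · have : ∃ i, g i x ∈ W (h x) := by
        by_contra hc; exact hx hc
      obtain ⟨i, hi⟩ := this
      exact ⟨i, Or.inl hi⟩
  refine ⟨fun x => Nat.find (hp x), Z, measurable_find hp (fun i => (hsec i).union hZ), hZ, ?_,
    ?_⟩
  · refine measure_mono_null ?_ (ae_iff.1 hae)
    intro x hx hx'
    exact hx (hx' (h x))
  · intro x hx y hy hxy hc
    have h1 : g (Nat.find (hp x)) x ∈ W (h x) := (Nat.find_spec (hp x)).resolve_right hx
    have h2 : g (Nat.find (hp y)) y ∈ W (h y) := (Nat.find_spec (hp y)).resolve_right hy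
    rw [← hc] at h2
    exact Set.disjoint_left.1 (hdis _ _ hxy) h1 h2

end H52.ML
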