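import Mathlib

/-!
# Lists of real numbers without a Baire measurable choice, even off a meagre set
-/

set_option autoImplicit false

open MeasureTheory Set Filter TopologicalSpace
open scoped ENNReal Topology

noncomputable section

namespace H52.ML

/-- unit distance in `ℝ × ℝ` -/
def Adj (x y : ℝ × ℝ) : Prop := (x.1 - y.1) ^ 2 + (x.2 - y.2) ^ 2 = 1

/-- the small square -/
def Bq : Set (ℝ × ℝ) := Ioo (-1 / 8) (1 / 8) ×ˢ Ioo (-1 / 8) (1 / 8)

theorem isOpen_Bq : IsOpen Bq := isOpen_Ioo.prod isOpen_Ioo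

/-- the unit vector with second coordinate `v` pointing to the left -/
def uv (v : ℝ) : ℝ × ℝ := (-Real.sqrt (1 - v ^ 2), v)

theorem adj_uv (x : ℝ × ℝ) (v : ℝ) (hv : |v| ≤ 1) : Adj x (x + uv v) := by
  have h : (0 : ℝ) ≤ 1 - v ^ 2 := by
    have := (sq_le_one_iff_abs_le_one v).2 hv
    linarith
  unfold Adj uv
  simp only [Prod.fst_add, Prod.snd_add]
  have := Real.sq_sqrt h
  nlinarith

theorem exists_region (U : Set (ℝ × ℝ)) (hU : IsOpen U) (hne : U.Nonempty) (hUB : U ⊆ Bq)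
    (J : Set ℝ) (hJ : IsOpen J) (hJne : J.Nonempty) (hJs : J ⊆ Ioo 0 (1 / 8)) :
    ∃ (V : Set (ℝ × ℝ)) (v : ℕ → ℝ), IsOpen V ∧ V.Nonempty ∧ Function.Injective v ∧
      (∀ j, |v j| ≤ 1) ∧ (∀ x ∈ V, 1 / 2 < x.1 ∧ x.2 ∈ J) ∧ ∀ x ∈ V, ∀ j, x + uv (v j) ∈ U := by
  obtain ⟨b, hb⟩ := hne
  obtain ⟨t, ht⟩ := hJne
  have hbB := hUB hb
  have htJ := hJs ht
  simp only [Bq, mem_prod, mem_Ioo] at hbB htJ
  set v0 : ℝ := b.2 - t with hv0
  have hv0a : |v0| ≤ 1 / 4 := by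
    rw [abs_le]; constructor <;> linarith [hbB.2.1, hbB.2.2, htJ.1, htJ.2]
  have hv0s : v0 ^ 2 ≤ 1 / 16 := by
    have := sq_le_sq' (by linarith [(abs_le.1 hv0a).1]) (abs_le.1 hv0a).2
    linarith
  set x0 : ℝ × ℝ := (b.1 + Real.sqrt (1 - v0 ^ 2), t) with hx0
  have hx0u : x0 + uv v0 = b := by
    ext
    · simp [x0, uv]
    · simp [x0, uv, v0]
  have hcont : Continuous (fun q : (ℝ × ℝ) × ℝ => q.1 + uv q.2) := by
    unfold uv
    fun_prop
  have hnh : (fun q : (ℝ × ℝ) × ℝ => q.1 + uv q.2) ⁻¹' U ∈ 𝓝 (x0, v0) := by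
    apply hcont.continuousAt.preimage_mem_nhds
    apply hU.mem_nhds
    simpa [hx0u] using hb
  rw [nhds_prod_eq, mem_prod_iff] at hnh
  obtain ⟨V1, hV1, N1, hN1, hsub⟩ := hnh
  obtain ⟨V2, hV21, hV2o, hxV2⟩ := mem_nhds_iff.1 hV1
  obtain ⟨δ, hδ, hball⟩ := Metric.mem_nhds_iff.1 hN1
  set η : ℝ := min (δ / 2) (1 / 4) with hη
  have hη0 : 0 < η := lt_min (by linarith) (by norm_num)
  have hηδ : η < δ := lt_of_le_of_lt (min_le_left _ _) (by linarith)
  have hη4 : η ≤ 1 / 4 := min_le_right _ _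
  have hbd : ∀ j : ℕ, 0 < η / (j + 1) ∧ η / (j + 1) ≤ η := by
    intro j
    have hj : (0 : ℝ) < j + 1 := by positivity
    refine ⟨div_pos hη0 hj, ?_⟩
    rw [div_le_iff₀ hj]
    nlinarith [(Nat.cast_nonneg j : (0 : ℝ) ≤ j)]
  refine ⟨V2 ∩ (Ioi (1 / 2) ×ˢ J), fun j => v0 + η / (j + 1), hV2o.inter (isOpen_Ioi.prod hJ),
    ⟨x0, hxV2, ?_, ht⟩, ?_, ?_, ?_, ?_⟩
  · simp only [hx0, mem_Ioi]
    have h1 : (3 / 4 : ℝ) ≤ Real.sqrt (1 - v0 ^ 2) := by
      apply Real.le_sqrt_of_sq_le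
      linarith
    linarith [hbB.1.1]
  · intro j k hjk
    simp only [add_right_inj] at hjk
    have hj : (j : ℝ) + 1 ≠ 0 := by positivity
    have hk : (k : ℝ) + 1 ≠ 0 := by positivity
    rw [div_eq_div_iff hj hk] at hjk
    have := mul_left_cancel₀ hη0.ne' hjk
    have h2 : (k : ℝ) = j := by linarith
    exact_mod_cast h2.symm
  · intro j
    have h1 := hbd j
    have h2 := abs_le.1 hv0a
    rw [abs_le]
    constructor <;> linarith [h1.1, h1.2, h2.1, h2.2]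
  · rintro x ⟨_, hx1, hx2⟩
    exact ⟨hx1, hx2⟩
  · rintro x ⟨hx, _⟩ j
    have h3 : (x, v0 + η / ((j : ℝ) + 1)) ∈ V1 ×ˢ N1 := by
      refine ⟨hV21 hx, hball ?_⟩
      rw [Metric.mem_ball, Real.dist_eq]
      have h1 := hbd j
      have : v0 + η / ((j : ℝ) + 1) - v0 = η / (j + 1) := by ring
      rw [this, abs_of_pos h1.1]
      exact lt_of_le_of_lt h1.2 hηδ
    exact hsub h3

/-- the strip number of a point -/
def strip (x : ℝ × ℝ) : ℕ := ⌊1 / (8 * x.2)⌋₊ - 1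

theorem measurable_strip : Measurable strip := by
  unfold strip
  have h1 : Measurable (fun x : ℝ × ℝ => ⌊1 / (8 * x.2)⌋₊) := by
    apply Nat.measurable_floor.comp
    fun_prop
  exact (Measurable.of_discrete (f := fun n : ℕ => n - 1)).comp h1

theorem strip_eq (m : ℕ) (x : ℝ × ℝ)
    (hx : x.2 ∈ Ioo (1 / (8 * ((m : ℝ) + 2))) (1 / (8 * ((m : ℝ) + 1)))) : strip x = m := by
  have hm1 : (0 : ℝ) < 8 * ((m : ℝ) + 1) := by positivity
  have hm2 : (0 : ℝ) < 8 * ((m : ℝ) + 2) := by positivity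
  obtain ⟨h1, h2⟩ := hx
  have hx0 : 0 < x.2 := lt_trans (by positivity) h1
  rw [div_lt_iff₀ hm2] at h1
  rw [lt_div_iff₀ hm1] at h2
  have h3 : ⌊1 / (8 * x.2)⌋₊ = m + 1 := by
    rw [Nat.floor_eq_iff (by positivity)]
    constructor
    · rw [le_div_iff₀ (by positivity)]
      push_cast
      nlinarith
    · rw [div_lt_iff₀ (by positivity)]
      push_cast
      nlinarith
  unfold strip
  rw [h3]
  rfl

/-- **Lists of reals without a Baire measurable choice proper on a comeagre set.** -/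
theorem real_lists : ∃ g : ℕ → ℝ × ℝ → ℝ, (∀ j, Measurable (g j)) ∧
    (∀ x, Function.Injective (fun j => g j x)) ∧
    ∀ (ι : ℝ × ℝ → ℕ) (Z : Set (ℝ × ℝ)), (∀ n, BaireMeasurableSet (ι ⁻¹' {n})) → IsMeagre Z →
      ∃ x ∉ Z, ∃ y ∉ Z, Adj x y ∧ g (ι x) x = g (ι y) y := by
  have hcount : (countableBasis (ℝ × ℝ)).Countable := countable_countableBasis _
  have hne : (countableBasis (ℝ × ℝ)).Nonempty := by
    obtain ⟨U, hU, _, _⟩ := (isBasis_countableBasis (ℝ × ℝ)).exists_subset_of_mem_open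
      (mem_univ (0 : ℝ × ℝ)) isOpen_univ
    exact ⟨U, hU⟩
  obtain ⟨u, hu⟩ := hcount.exists_eq_range hne
  have hopen : ∀ q, IsOpen (u q) := fun q =>
    isOpen_of_mem_countableBasis (by rw [hu]; exact mem_range_self q)
  let J : ℕ → Set ℝ := fun m => Ioo (1 / (8 * ((m : ℝ) + 2))) (1 / (8 * ((m : ℝ) + 1)))
  have hJne : ∀ m, (J m).Nonempty := by
    intro m
    apply nonempty_Ioo.2
    apply one_div_lt_one_div_of_lt (by positivity)
    linarith
  have hJs : ∀ m, J m ⊆ Ioo 0 (1 / 8) := by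
    intro m s hs
    refine ⟨lt_trans (by positivity) hs.1, lt_of_lt_of_le hs.2 ?_⟩
    apply one_div_le_one_div_of_le (by norm_num)
    nlinarith [(Nat.cast_nonneg m : (0 : ℝ) ≤ m)]
  have hdata : ∀ m : ℕ, ∃ (V : Set (ℝ × ℝ)) (v : ℕ → ℝ), IsOpen V ∧ Function.Injective v ∧
      (∀ j, |v j| ≤ 1) ∧ (∀ x ∈ V, 1 / 2 < x.1 ∧ x.2 ∈ J m) ∧
      (∀ x ∈ V, ∀ j, x + uv (v j) ∈ u (Nat.unpair m).1) ∧
      ((u (Nat.unpair m).1).Nonempty → u (Nat.unpair m).1 ⊆ Bq → V.Nonempty) := by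
    intro m
    by_cases h : (u (Nat.unpair m).1).Nonempty ∧ u (Nat.unpair m).1 ⊆ Bq
    · obtain ⟨V, v, h1, h2, h3, h4, h5, h6⟩ := exists_region _ (hopen _) h.1 h.2 (J m)
        isOpen_Ioo (hJne m) (hJs m)
      exact ⟨V, v, h1, h3, h4, h5, h6, fun _ _ => h2⟩
    · refine ⟨∅, fun j => 1 / ((j : ℝ) + 1), isOpen_empty, ?_, ?_, by simp, by simp, ?_⟩
      · intro j k hjk
        simp only at hjk
        have hj : (j : ℝ) + 1 ≠ 0 := by positivity
        have hk : (k : ℝ) + 1 ≠ 0 := by positivity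
        rw [div_eq_div_iff hj hk] at hjk
        have h2 : (k : ℝ) = j := by linarith
        exact_mod_cast h2.symm
      · intro j
        rw [abs_of_pos (by positivity), div_le_one (by positivity)]
        linarith [(Nat.cast_nonneg j : (0 : ℝ) ≤ j)]
      · intro h1 h2
        exact absurd ⟨h1, h2⟩ h
  choose V v hVo hvi hv1 hVs hVU hVne using hdata
  classical
  let g : ℕ → ℝ × ℝ → ℝ := fun j x =>
    if x.1 ≤ 1 / 2 then (j : ℝ) + x.2
    else ((Nat.unpair (strip x)).2 : ℝ) + x.2 + v (strip x) j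
  refine ⟨g, ?_, ?_, ?_⟩
  · intro j
    have hs : MeasurableSet {x : ℝ × ℝ | x.1 ≤ 1 / 2} := measurableSet_le measurable_fst
      measurable_const
    refine Measurable.ite hs (measurable_const.add measurable_snd) ?_
    refine Measurable.add (Measurable.add ?_ measurable_snd) ?_
    · exact (Measurable.of_discrete (f := fun m : ℕ => ((Nat.unpair m).2 : ℝ))).comp
        measurable_strip
    · exact (Measurable.of_discrete (f := fun m : ℕ => v m j)).comp measurable_strip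
  · intro x j k hjk
    simp only [g] at hjk
    by_cases hx : x.1 ≤ 1 / 2
    · simp only [hx, if_true] at hjk
      have : (j : ℝ) = k := by linarith
      exact_mod_cast this
    · simp only [hx, if_false] at hjk
      exact hvi _ (by linarith)
  · intro ι Z hι hZ
    have h0 : ∃ i, ¬ IsMeagre (Bq ∩ ι ⁻¹' {i}) := by
      by_contra hc
      push Not at hc
      have h1 : Bq = ⋃ i, (Bq ∩ ι ⁻¹' {i}) := by
        ext x
        simp
      have h2 : IsMeagre Bq := by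
        rw [h1]
        exact isMeagre_iUnion hc
      exact not_isMeagre_of_isOpen isOpen_Bq ⟨(0, 0), by simp [Bq]; norm_num⟩ h2
    obtain ⟨i, hi⟩ := h0
    obtain ⟨O, hO, hιO⟩ := (hι i).residualEq_isOpen
    have hiff : ∀ᶠ x in residual (ℝ × ℝ), (x ∈ ι ⁻¹' {i} ↔ x ∈ O) := hιO.mem_iff
    have hOB : (O ∩ Bq).Nonempty := by
      by_contra hc
      rw [Set.not_nonempty_iff_eq_empty] at hc
      apply hi
      unfold IsMeagre
      filter_upwards [hiff] with x hx hx2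
      have : x ∈ O ∩ Bq := ⟨hx.1 hx2.2, hx2.1⟩
      rw [hc] at this
      exact this
    obtain ⟨b, hb⟩ := hOB
    obtain ⟨U, hU, hbU, hUO⟩ := (isBasis_countableBasis (ℝ × ℝ)).exists_subset_of_mem_open hb
      (hO.inter isOpen_Bq)
    rw [hu] at hU
    obtain ⟨q, rfl⟩ := hU
    set m : ℕ := Nat.pair q i with hm
    have hq : (Nat.unpair m).1 = q := by simp [hm]
    have hqi : (Nat.unpair m).2 = i := by simp [hm]
    have hVm : (V m).Nonempty := hVne m (by rw [hq]; exact ⟨b, hbU⟩)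
      (by rw [hq]; exact fun y hy => (hUO hy).2)
    -- a generic point of V m
    have hgood : {y : ℝ × ℝ | (y ∈ ι ⁻¹' {i} ↔ y ∈ O) ∧ y ∉ Z} ∈ residual (ℝ × ℝ) := by
      have hZ' : Zᶜ ∈ residual (ℝ × ℝ) := hZ
      filter_upwards [hiff, hZ'] with y hy hy2
      exact ⟨hy, hy2⟩
    have htr : ∀ j, {x : ℝ × ℝ | x + uv (v m j) ∈
        {y : ℝ × ℝ | (y ∈ ι ⁻¹' {i} ↔ y ∈ O) ∧ y ∉ Z}} ∈ residual (ℝ × ℝ) := by
      intro j
      exact tendsto_residual_of_isOpenMap (Homeomorph.addRight (uv (v m j))).continuous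
        (Homeomorph.addRight (uv (v m j))).isOpenMap hgood
    have hall : (⋂ j, {x : ℝ × ℝ | x + uv (v m j) ∈
        {y : ℝ × ℝ | (y ∈ ι ⁻¹' {i} ↔ y ∈ O) ∧ y ∉ Z}}) ∩ Zᶜ ∈ residual (ℝ × ℝ) :=
      inter_mem (countable_iInter_mem.2 htr) hZ
    obtain ⟨x, hxV, hxa, hxZ⟩ := (dense_of_mem_residual hall).inter_open_nonempty _ (hVo m) hVm
    have hxj := mem_iInter.1 hxa (ι x)
    simp only [mem_ofPred_eq, mem_preimage, mem_singleton_iff] at hxj
    set y := x + uv (v m (ι x)) with hy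
    have hyU : y ∈ u q := by
      have := hVU m x hxV (ι x)
      rwa [hq] at this
    have hιy : ι y = i := hxj.1.2 (hUO hyU).1
    refine ⟨x, hxZ, y, hxj.2, adj_uv x _ (hv1 m _), ?_⟩
    have hx1 : ¬ x.1 ≤ 1 / 2 := not_le.2 (hVs m x hxV).1
    have hxs : strip x = m := strip_eq m x (hVs m x hxV).2
    have hy1 : y.1 ≤ 1 / 2 := by
      have := (hUO hyU).2.1.2
      linarith
    simp only [g, hx1, if_false, hxs, hιy, hy1, if_true, hqi]
    simp only [hy, uv, Prod.snd_add]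
    ring

end H52.ML
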