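import Mathlib
import Pool.Agent.H52.ML.RealLists

/-!
# Tools: codes for closed sets, Fubini and Kuratowski Ulam along unit arcs
-/

set_option autoImplicit false

open MeasureTheory Set Filter TopologicalSpace
open scoped ENNReal Topology

noncomputable section

namespace H52.ML

/-- codes -/
abbrev Code : Type := ℕ → ℕ → ℕ → Bool

theorem uncountable_code : ¬ Countable Code := by
  intro h
  obtain ⟨f, _, hf⟩ := MeasurableSpace.measurable_injection_nat_bool_of_countablySeparated ℝ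
  have hinj : Function.Injective (fun (x : ℝ) => ((fun _ _ => f x) : Code)) := by
    intro x y hxy
    exact hf (congrFun (congrFun hxy 0) 0)
  have : Countable ℝ := hinj.countable
  exact absurd this (not_countable (α := ℝ))

/-- every code is read off from a number in `(0, 1/4)` -/
theorem exists_rho : ∃ ρ : ℝ → Code, Measurable ρ ∧ ∀ r, ∃ s ∈ Ioo (0 : ℝ) (1 / 4), ρ s = r := by
  have e : ℝ ≃ᵐ Code := PolishSpace.measurableEquivOfNotCountable
    (not_countable (α := ℝ)) uncountable_code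
  refine ⟨fun x => e (Real.tan (16 * x - 2)), ?_, ?_⟩
  · apply e.measurable.comp
    have : (fun x : ℝ => Real.tan (16 * x - 2)) =
        fun x => Real.sin (16 * x - 2) / Real.cos (16 * x - 2) := by
      funext x
      exact Real.tan_eq_sin_div_cos _
    rw [this]
    fun_prop
  · intro r
    obtain ⟨z, hz, hz2⟩ := Real.surjOn_tan (mem_univ (e.symm r))
    have hpi : Real.pi / 2 < 2 := by linarith [Real.pi_lt_four]
    refine ⟨(z + 2) / 16, ⟨?_, ?_⟩, ?_⟩
    · linarith [hz.1]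
    · linarith [hz.2]
    · have : 16 * ((z + 2) / 16) - 2 = z := by ring
      simp only [this, hz2, MeasurableEquiv.apply_symm_apply]

/-- the closed set with code `s` -/
def Kset (u : ℕ → Set (ℝ × ℝ)) (s : ℕ → Bool) : Set (ℝ × ℝ) := (⋃ i ∈ {i | s i = true}, u i)ᶜ

theorem code_closed (u : ℕ → Set (ℝ × ℝ)) (hu : countableBasis (ℝ × ℝ) = range u)
    (F : Set (ℝ × ℝ)) (hF : IsClosed F) : ∃ s, Kset u s = F := by
  classical
  refine ⟨fun i => decide (u i ⊆ Fᶜ), ?_⟩
  unfold Kset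
  rw [compl_eq_comm]
  ext x
  simp only [mem_iUnion, mem_ofPred_eq, decide_eq_true_eq, exists_prop]
  constructor
  · intro hx
    obtain ⟨U, hU, hxU, hUF⟩ := (isBasis_countableBasis (ℝ × ℝ)).exists_subset_of_mem_open hx
      hF.isOpen_compl
    rw [hu] at hU
    obtain ⟨i, rfl⟩ := hU
    exact ⟨i, hUF, hxU⟩
  · rintro ⟨i, hi, hx⟩
    exact hi hx

theorem code_null (u : ℕ → Set (ℝ × ℝ)) (hu : countableBasis (ℝ × ℝ) = range u)
    (S : Set (ℝ × ℝ)) (hS : NullMeasurableSet S volume) :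
    ∃ s : ℕ → ℕ → Bool, (⋃ m, Kset u (s m)) ⊆ S ∧ volume (S \ ⋃ m, Kset u (s m)) = 0 := by
  obtain ⟨T, hTS, hT, hTae⟩ := hS.exists_measurable_subset_ae_eq
  set ν : Measure (ℝ × ℝ) := (volume : Measure (ℝ × ℝ)).toFinite with hν
  have h1 : ∀ m : ℕ, ∃ F ⊆ T, IsClosed F ∧ ν (T \ F) < 1 / ((m : ℝ≥0∞) + 1) := by
    intro m
    exact hT.exists_isClosed_sdiff_lt (by finiteness) (by simp)
  choose F hFT hFc hF using h1
  choose s hs using fun m => code_closed u hu (F m) (hFc m)
  refine ⟨s, ?_, ?_⟩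
  · rw [iUnion_subset_iff]
    intro m
    rw [hs]
    exact (hFT m).trans hTS
  · have h2 : ν (T \ ⋃ m, Kset u (s m)) = 0 := by
      rw [← nonpos_iff_eq_zero]
      refine ge_of_tendsto' (x := atTop) (f := fun m : ℕ => 1 / ((m : ℝ≥0∞) + 1)) ?_ ?_
      · have h5 := ENNReal.tendsto_inv_nat_nhds_zero.comp (tendsto_add_atTop_nat 1)
        refine h5.congr (fun m => ?_)
        simp
      · intro m
        refine le_trans (measure_mono ?_) (hF m).le
        refine sdiff_subset_sdiff_right ?_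
        rw [← hs m]
        exact subset_iUnion (fun m => Kset u (s m)) m
    have h3 : volume (T \ ⋃ m, Kset u (s m)) = 0 := absolutelyContinuous_toFinite _ h2
    have h4 : volume (S \ T) = 0 := by
      have := hTae.symm.le
      exact (ae_le_set.1 this)
    refine measure_mono_null ?_ (measure_union_null h3 h4)
    intro x hx
    by_cases hxT : x ∈ T
    · exact Or.inl ⟨hxT, hx.2⟩
    · exact Or.inr ⟨hx.1, hxT⟩

/-- unit vectors of the first quadrant -/
def av (w : ℝ) : ℝ × ℝ := (w, Real.sqrt (1 - w ^ 2))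

theorem continuous_av : Continuous av := by
  unfold av
  fun_prop

theorem adj_av (x : ℝ × ℝ) (w : ℝ) (hw : w ∈ Ioo (0 : ℝ) 1) : Adj x (x + av w) := by
  have h : (0 : ℝ) ≤ 1 - w ^ 2 := by
    have : w ^ 2 ≤ 1 := by nlinarith [hw.1, hw.2]
    linarith
  unfold Adj av
  simp only [Prod.fst_add, Prod.snd_add]
  have := Real.sq_sqrt h
  nlinarith

theorem fubini_arc (Z : Set (ℝ × ℝ)) (hZ : volume Z = 0) (s : ℝ) :
    ∀ᵐ t : ℝ, ∀ᵐ w : ℝ, ((s, t) : ℝ × ℝ) + av w ∉ Z := by
  set Z' := toMeasurable volume Z with hZ'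
  have hm : MeasurableSet Z' := measurableSet_toMeasurable _ _
  have h0 : volume Z' = 0 := by rw [measure_toMeasurable, hZ]
  have h1 : ∀ᵐ z : ℝ × ℝ, z ∉ Z' := by
    rw [ae_iff]
    simpa using h0
  have h2 : ∀ᵐ a : ℝ, ∀ᵐ b : ℝ, (a, b) ∉ Z' := Measure.ae_ae_of_ae_prod h1
  have h3 : ∀ᵐ w : ℝ, ∀ᵐ b : ℝ, (s + w, b) ∉ Z' :=
    (measurePreserving_add_left (volume : Measure ℝ) s).quasiMeasurePreserving.ae h2
  have h4 : ∀ᵐ w : ℝ, ∀ᵐ t : ℝ, ((s, t) : ℝ × ℝ) + av w ∉ Z' := by
    filter_upwards [h3] with w hw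
    exact (measurePreserving_add_right (volume : Measure ℝ)
      (Real.sqrt (1 - w ^ 2))).quasiMeasurePreserving.ae hw
  have h5 : MeasurableSet {q : ℝ × ℝ | ((s, q.2) : ℝ × ℝ) + av q.1 ∉ Z'} := by
    have hc : Continuous (fun q : ℝ × ℝ => ((s, q.2) : ℝ × ℝ) + av q.1) := by
      have := continuous_av
      fun_prop
    exact hc.measurable hm.compl
  have h6 := (Measure.ae_ae_comm (μ := (volume : Measure ℝ)) (ν := (volume : Measure ℝ))
    (p := fun w t => ((s, t) : ℝ × ℝ) + av w ∉ Z') h5).1 h4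
  filter_upwards [h6] with t ht
  filter_upwards [ht] with w hw hc
  exact hw (subset_toMeasurable _ _ hc)

/-- Kuratowski Ulam -/
theorem kuratowski_ulam {X Y : Type} [TopologicalSpace X] [TopologicalSpace Y]
    [SecondCountableTopology Y] (R : Set (X × Y)) (hR : R ∈ residual (X × Y)) :
    ∀ᶠ x in residual X, {y | (x, y) ∈ R} ∈ residual Y := by
  obtain ⟨S, hSo, hSd, hSc, hSR⟩ := mem_residual_iff.1 hR
  have h1 : ∀ t ∈ S, ∀ᶠ x in residual X, Dense {y | (x, y) ∈ t} := by
    intro t ht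
    have h2 : ∀ W ∈ countableBasis Y, ∀ᶠ x in residual X, ∃ y ∈ W, (x, y) ∈ t := by
      intro W hW
      have hWo : IsOpen W := isOpen_of_mem_countableBasis hW
      have hWne : W.Nonempty := nonempty_of_mem_countableBasis hW
      have h3 : {x : X | ∃ y ∈ W, (x, y) ∈ t} = Prod.fst '' (t ∩ (univ ×ˢ W)) := by
        ext x
        simp only [mem_ofPred_eq, mem_image, mem_inter_iff, mem_prod, mem_univ, true_and,
          Prod.exists, exists_and_right, exists_eq_right]
        exact ⟨fun ⟨y, h1, h2⟩ => ⟨y, h2, h1⟩, fun ⟨y, h1, h2⟩ => ⟨y, h2, h1⟩⟩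
      apply residual_of_dense_open
      · rw [h3]
        exact isOpenMap_fst _ ((hSo t ht).inter (isOpen_univ.prod hWo))
      · rw [dense_iff_inter_open]
        intro U hU hUne
        obtain ⟨⟨x, y⟩, ⟨hxU, hyW⟩, hxt⟩ := (hSd t ht).inter_open_nonempty (U ×ˢ W)
          (hU.prod hWo) (hUne.prod hWne)
        exact ⟨x, hxU, y, hyW, hxt⟩
    have h4 := (countable_bInter_mem (countable_countableBasis Y)).2 h2
    filter_upwards [h4] with x hx
    rw [(isBasis_countableBasis Y).dense_iff]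
    intro W hW _
    obtain ⟨y, hyW, hy⟩ := mem_iInter₂.1 hx W hW
    exact ⟨y, hyW, hy⟩
  have h5 := (countable_bInter_mem hSc).2 h1
  filter_upwards [h5] with x hx
  have h6 : ∀ t ∈ S, {y | (x, y) ∈ t} ∈ residual Y := by
    intro t ht
    apply residual_of_dense_open
    · exact (hSo t ht).preimage (Continuous.prodMk_right x)
    · exact mem_iInter₂.1 hx t ht
  have h7 := (countable_bInter_mem hSc).2 h6
  filter_upwards [h7] with y hy
  apply hSR
  intro t ht
  exact mem_iInter₂.1 hy t ht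

/-- the shear -/
def shear (s : ℝ) : (ℝ × ℝ) ≃ₜ (ℝ × ℝ) where
  toFun q := ((s, q.1) : ℝ × ℝ) + av q.2
  invFun z := (z.2 - Real.sqrt (1 - (z.1 - s) ^ 2), z.1 - s)
  left_inv q := by
    simp [av]
  right_inv z := by
    simp [av]
  continuous_toFun := by
    have := continuous_av
    fun_prop
  continuous_invFun := by fun_prop

theorem ku_arc (R : Set (ℝ × ℝ)) (hR : R ∈ residual (ℝ × ℝ)) (s : ℝ) :
    ∀ᶠ t in residual ℝ, {w | ((s, t) : ℝ × ℝ) + av w ∈ R} ∈ residual ℝ := by
  have h := tendsto_residual_of_isOpenMap (shear s).continuous (shear s).isOpenMap hR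
  exact kuratowski_ulam _ h

end H52.ML
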