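import Mathlib
import Pool.Agent.H52.ML.Tools

/-!
# Borel lists of natural numbers without a measurable choice
-/

set_option autoImplicit false

open MeasureTheory Set Filter TopologicalSpace
open scoped ENNReal Topology

noncomputable section

namespace H52.ML

/-- the coded sets -/
def Aset (u : ℕ → Set (ℝ × ℝ)) (r : Code) (n : ℕ) : Set (ℝ × ℝ) := ⋃ m, Kset u (r n m)

/-- the coded open sets -/
def Oset (u : ℕ → Set (ℝ × ℝ)) (r : Code) (n : ℕ) : Set (ℝ × ℝ) := (Kset u (r n 0))ᶜ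

/-- colours of positive measure on the arc -/
def U1 (u : ℕ → Set (ℝ × ℝ)) (r : Code) (x : ℝ × ℝ) : Set ℕ :=
  {n | volume {w : ℝ | w ∈ Ioo (0 : ℝ) 1 ∧ x + av w ∈ Aset u r n} ≠ 0}

/-- colours which occur openly on the arc -/
def U2 (u : ℕ → Set (ℝ × ℝ)) (r : Code) (x : ℝ × ℝ) : Set ℕ :=
  {n | ∃ w ∈ Ioo (0 : ℝ) 1, x + av w ∈ Oset u r n}

/-- the lower bound for generic lists -/
def fl (y : ℝ × ℝ) : ℕ := ⌊|y.1 - 1|⁻¹⌋₊

theorem inf_iff (S : Set ℕ) : S.Infinite ↔ ∀ N : ℕ, ∃ n, N ≤ n ∧ n ∈ S := by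
  constructor
  · intro h N
    obtain ⟨n, hn, h'⟩ := h.exists_gt N
    exact ⟨n, h'.le, hn⟩
  · intro h
    refine Set.infinite_of_forall_exists_gt (fun N => ?_)
    obtain ⟨n, hn, h'⟩ := h (N + 1)
    exact ⟨n, h', hn⟩

/-- the infinite ones among the sets, otherwise everything -/
def fix (S : Set ℕ) : Set ℕ := {n | S.Infinite → n ∈ S}

theorem fix_infinite (S : Set ℕ) : (fix S).Infinite := by
  by_cases h : S.Infinite
  · have : fix S = S := by
      ext n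
      simp [fix, h]
    rw [this]
    exact h
  · have : fix S = univ := by
      ext n
      simp [fix, h]
    rw [this]
    exact infinite_univ

theorem fix_eq {S : Set ℕ} (h : S.Infinite) : fix S = S := by
  ext n
  simp [fix, h]

/-- the lists -/
def LL (u : ℕ → Set (ℝ × ℝ)) (ρ : ℝ → Code) (x : ℝ × ℝ) : Set ℕ :=
  {n | (1 / 4 ≤ x.1 ∨ x.1 ≤ 0 → fl x ≤ n) ∧
    (0 < x.1 ∧ x.1 < 1 / 4 → (0 < x.2 → n ∈ fix (U1 u (ρ x.1) x)) ∧
      (x.2 ≤ 0 → n ∈ fix (U2 u (ρ x.1) x)))}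

theorem LL_gen (u : ℕ → Set (ℝ × ℝ)) (ρ : ℝ → Code) (x : ℝ × ℝ) (h : 1 / 4 ≤ x.1 ∨ x.1 ≤ 0) :
    LL u ρ x = {n | fl x ≤ n} := by
  ext n
  simp only [LL, mem_ofPred_eq, h, true_implies]
  constructor
  · exact fun h => h.1
  · refine fun h' => ⟨h', fun h2 => ?_⟩
    exfalso
    rcases h with h | h
    · linarith [h2.2]
    · linarith [h2.1]

theorem LL_one (u : ℕ → Set (ℝ × ℝ)) (ρ : ℝ → Code) (x : ℝ × ℝ) (h1 : 0 < x.1)
    (h2 : x.1 < 1 / 4) (h3 : 0 < x.2) : LL u ρ x = fix (U1 u (ρ x.1) x) := by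
  ext n
  simp only [LL, mem_ofPred_eq, h1, h2, h3, true_implies, true_and]
  constructor
  · exact fun h => h.2.1
  · refine fun h' => ⟨fun h => ?_, h', fun h => ?_⟩
    · exfalso
      rcases h with h | h <;> linarith
    · exfalso; linarith

theorem LL_two (u : ℕ → Set (ℝ × ℝ)) (ρ : ℝ → Code) (x : ℝ × ℝ) (h1 : 0 < x.1)
    (h2 : x.1 < 1 / 4) (h3 : x.2 ≤ 0) : LL u ρ x = fix (U2 u (ρ x.1) x) := by
  ext n
  simp only [LL, mem_ofPred_eq, h1, h2, h3, true_implies, true_and]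
  constructor
  · exact fun h => h.2.2
  · refine fun h' => ⟨fun h => ?_, fun h => ?_, h'⟩
    · exfalso
      rcases h with h | h <;> linarith
    · exfalso; linarith

theorem LL_infinite (u : ℕ → Set (ℝ × ℝ)) (ρ : ℝ → Code) (x : ℝ × ℝ) :
    (LL u ρ x).Infinite := by
  by_cases h : 1 / 4 ≤ x.1 ∨ x.1 ≤ 0
  · rw [LL_gen u ρ x h]
    exact Set.Ici_infinite (fl x)
  · push Not at h
    rcases lt_or_ge 0 x.2 with h3 | h3
    · rw [LL_one u ρ x h.2 h.1 h3]
      exact fix_infinite _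
    · rw [LL_two u ρ x h.2 h.1 h3]
      exact fix_infinite _

theorem measurable_Kset (u : ℕ → Set (ℝ × ℝ)) (hu : ∀ i, IsOpen (u i)) {X : Type}
    [MeasurableSpace X] (r : X → ℕ → Bool) (hr : Measurable r) (y : X → ℝ × ℝ)
    (hy : Measurable y) : MeasurableSet {x | y x ∈ Kset u (r x)} := by
  have h1 : {x | y x ∈ Kset u (r x)} = ⋂ i, ({x | r x i = true}ᶜ ∪ (y ⁻¹' (u i))ᶜ) := by
    ext x
    simp only [Kset, mem_ofPred_eq, mem_compl_iff, mem_iUnion, not_exists, mem_iInter,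
      mem_union, mem_preimage, exists_prop, not_and]
    refine forall_congr' (fun i => ?_)
    by_cases h : r x i = true <;> simp [h]
  rw [h1]
  refine MeasurableSet.iInter (fun i => ?_)
  refine MeasurableSet.union ?_ (hy (hu i).measurableSet).compl
  have h2 : Measurable (fun x => r x i) := (measurable_pi_apply i).comp hr
  exact (h2 (measurableSet_singleton true)).compl

theorem measurable_U1 (u : ℕ → Set (ℝ × ℝ)) (hu : ∀ i, IsOpen (u i)) (ρ : ℝ → Code)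
    (hρ : Measurable ρ) (n : ℕ) : MeasurableSet {x : ℝ × ℝ | n ∈ U1 u (ρ x.1) x} := by
  have h1 : MeasurableSet {q : (ℝ × ℝ) × ℝ | q.2 ∈ Ioo (0 : ℝ) 1 ∧
      q.1 + av q.2 ∈ Aset u (ρ q.1.1) n} := by
    refine (measurable_snd measurableSet_Ioo).inter ?_
    have h2 : {q : (ℝ × ℝ) × ℝ | q.1 + av q.2 ∈ Aset u (ρ q.1.1) n} =
        ⋃ m, {q | q.1 + av q.2 ∈ Kset u (ρ q.1.1 n m)} := by
      ext q
      simp [Aset]
    change MeasurableSet {q : (ℝ × ℝ) × ℝ | q.1 + av q.2 ∈ Aset u (ρ q.1.1) n}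
    rw [h2]
    refine MeasurableSet.iUnion (fun m => measurable_Kset u hu _ ?_ _ ?_)
    · have h3 : Measurable (fun q : (ℝ × ℝ) × ℝ => ρ q.1.1) :=
        hρ.comp (measurable_fst.comp measurable_fst)
      exact (measurable_pi_apply m).comp ((measurable_pi_apply n).comp h3)
    · exact measurable_fst.add (continuous_av.measurable.comp measurable_snd)
  have h4 := measurable_measure_prodMk_left (ν := (volume : Measure ℝ)) h1
  exact (h4 (measurableSet_singleton 0)).compl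

theorem measurable_U2 (u : ℕ → Set (ℝ × ℝ)) (hu : ∀ i, IsOpen (u i)) (ρ : ℝ → Code)
    (hρ : Measurable ρ) (n : ℕ) : MeasurableSet {x : ℝ × ℝ | n ∈ U2 u (ρ x.1) x} := by
  have h1 : {x : ℝ × ℝ | n ∈ U2 u (ρ x.1) x} =
      ⋃ i, ({x : ℝ × ℝ | ρ x.1 n 0 i = true} ∩
        ⋃ w ∈ Ioo (0 : ℝ) 1, (fun x : ℝ × ℝ => x + av w) ⁻¹' (u i)) := by
    ext x
    simp only [U2, Oset, Kset, compl_compl, mem_ofPred_eq, mem_iUnion, mem_inter_iff,
      mem_preimage, exists_prop]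
    constructor
    · rintro ⟨w, hw, i, hi, hx⟩
      exact ⟨i, hi, w, hw, hx⟩
    · rintro ⟨i, hi, w, hw, hx⟩
      exact ⟨w, hw, i, hi, hx⟩
  rw [h1]
  refine MeasurableSet.iUnion (fun i => MeasurableSet.inter ?_ ?_)
  · have h3 : Measurable (fun x : ℝ × ℝ => ρ x.1 n 0 i) :=
      (measurable_pi_apply i).comp ((measurable_pi_apply 0).comp ((measurable_pi_apply n).comp
        (hρ.comp measurable_fst)))
    exact h3 (measurableSet_singleton true)
  · refine IsOpen.measurableSet ?_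
    refine isOpen_biUnion (fun w _ => ?_)
    exact (hu i).preimage (continuous_id.add continuous_const)

theorem measurable_fix {X : Type} [MeasurableSpace X] (S : X → Set ℕ)
    (hS : ∀ n, MeasurableSet {x | n ∈ S x}) (n : ℕ) : MeasurableSet {x | n ∈ fix (S x)} := by
  have h1 : MeasurableSet {x | (S x).Infinite} := by
    have h2 : {x | (S x).Infinite} = ⋂ N : ℕ, ⋃ m ∈ Ici N, {x | m ∈ S x} := by
      ext x
      simp only [mem_ofPred_eq, mem_iInter, mem_iUnion, mem_Ici, exists_prop]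
      exact inf_iff (S x)
    rw [h2]
    exact MeasurableSet.iInter (fun N => MeasurableSet.biUnion (Set.to_countable _)
      (fun m _ => hS m))
  have h3 : {x | n ∈ fix (S x)} = {x | (S x).Infinite}ᶜ ∪ {x | n ∈ S x} := by
    ext x
    simp only [fix, mem_ofPred_eq, mem_union, mem_compl_iff]
    exact imp_iff_not_or
  rw [h3]
  exact h1.compl.union (hS n)

theorem measurable_fl : Measurable fl := by
  unfold fl
  apply Nat.measurable_floor.comp
  have : Measurable (fun y : ℝ × ℝ => |y.1 - 1|) := by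
    have h := (measurable_fst : Measurable (Prod.fst : ℝ × ℝ → ℝ)).sub_const 1
    exact h.abs
  exact this.inv

theorem measurable_LL (u : ℕ → Set (ℝ × ℝ)) (hu : ∀ i, IsOpen (u i)) (ρ : ℝ → Code)
    (hρ : Measurable ρ) (n : ℕ) : MeasurableSet {x : ℝ × ℝ | n ∈ LL u ρ x} := by
  have hA : MeasurableSet {x : ℝ × ℝ | 1 / 4 ≤ x.1 ∨ x.1 ≤ 0} :=
    (measurableSet_le measurable_const measurable_fst).union
      (measurableSet_le measurable_fst measurable_const)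
  have hB : MeasurableSet {x : ℝ × ℝ | 0 < x.1 ∧ x.1 < 1 / 4} :=
    (measurableSet_lt measurable_const measurable_fst).inter
      (measurableSet_lt measurable_fst measurable_const)
  have hC : MeasurableSet {x : ℝ × ℝ | 0 < x.2} := measurableSet_lt measurable_const measurable_snd
  have hD : MeasurableSet {x : ℝ × ℝ | x.2 ≤ 0} := measurableSet_le measurable_snd measurable_const
  have hF : MeasurableSet {x : ℝ × ℝ | fl x ≤ n} := measurable_fl (measurableSet_Iic (a := n))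
  have h1 := measurable_fix (fun x : ℝ × ℝ => U1 u (ρ x.1) x) (measurable_U1 u hu ρ hρ) n
  have h2 := measurable_fix (fun x : ℝ × ℝ => U2 u (ρ x.1) x) (measurable_U2 u hu ρ hρ) n
  have h3 : {x : ℝ × ℝ | n ∈ LL u ρ x} =
      ({x : ℝ × ℝ | 1 / 4 ≤ x.1 ∨ x.1 ≤ 0}ᶜ ∪ {x | fl x ≤ n}) ∩
      ({x : ℝ × ℝ | 0 < x.1 ∧ x.1 < 1 / 4}ᶜ ∪
        (({x : ℝ × ℝ | 0 < x.2}ᶜ ∪ {x | n ∈ fix (U1 u (ρ x.1) x)}) ∩
        ({x : ℝ × ℝ | x.2 ≤ 0}ᶜ ∪ {x | n ∈ fix (U2 u (ρ x.1) x)}))) := by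
    ext x
    simp only [LL, mem_ofPred_eq, mem_inter_iff, mem_union, mem_compl_iff]
    rw [← imp_iff_not_or, ← imp_iff_not_or, ← imp_iff_not_or, ← imp_iff_not_or]
  rw [h3]
  exact (hA.compl.union hF).inter (hB.compl.union ((hC.compl.union h1).inter (hD.compl.union h2)))

/-- on the arc near the line `y.1 = 1` only large colours are allowed -/
theorem large_colour (u : ℕ → Set (ℝ × ℝ)) (ρ : ℝ → Code) (s t w : ℝ) (N n : ℕ)
    (hw1 : 1 - s - 1 / ((N : ℝ) + 2) < w) (hw2 : w < 1 - s)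
    (hn : n ∈ LL u ρ ((s, t) + av w)) : N ≤ n := by
  have hy1 : (((s, t) : ℝ × ℝ) + av w).1 = s + w := by simp [av]
  have hN : (0 : ℝ) < (N : ℝ) + 2 := by positivity
  have hN1 : 1 / ((N : ℝ) + 2) ≤ 1 / 2 := by
    apply one_div_le_one_div_of_le (by norm_num)
    linarith [(Nat.cast_nonneg N : (0 : ℝ) ≤ N)]
  rw [LL_gen u ρ _ (Or.inl (by rw [hy1]; linarith))] at hn
  refine le_trans ?_ hn
  unfold fl
  rw [hy1]
  apply Nat.le_floor
  have h1 : |s + w - 1| = 1 - s - w := by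
    rw [abs_of_neg (by linarith)]
    ring
  rw [h1]
  have h2 : 0 < 1 - s - w := by linarith
  have h3 : 1 - s - w < 1 / ((N : ℝ) + 2) := by linarith
  rw [← one_div, le_div_iff₀ h2]
  rw [lt_div_iff₀ hN] at h3
  nlinarith

theorem neg_measure (u : ℕ → Set (ℝ × ℝ)) (hu : countableBasis (ℝ × ℝ) = range u)
    (ρ : ℝ → Code) (hρ : ∀ r, ∃ s ∈ Ioo (0 : ℝ) (1 / 4), ρ s = r)
    (c : ℝ × ℝ → ℕ) (hc : ∀ n, NullMeasurableSet (c ⁻¹' {n}) volume)
    (hcL : ∀ x, c x ∈ LL u ρ x) : ∃ x y, Adj x y ∧ c x = c y := by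
  choose s hs1 hs2 using fun n => code_null u hu _ (hc n)
  obtain ⟨a, ha, har⟩ := hρ s
  have hsub : ∀ n, Aset u (ρ a) n ⊆ c ⁻¹' {n} := fun n => by rw [har]; exact hs1 n
  have hZ : volume (⋃ n, Aset u (ρ a) n)ᶜ = 0 := by
    refine measure_mono_null ?_ (measure_iUnion_null hs2)
    intro y hy
    rw [mem_iUnion]
    refine ⟨c y, rfl, fun h => hy ?_⟩
    rw [mem_iUnion]
    refine ⟨c y, ?_⟩
    rw [har]
    exact h
  have hf := fubini_arc _ hZ a
  have hpos : volume (Ioo (0 : ℝ) (1 / 4)) ≠ 0 := by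
    rw [Real.volume_Ioo]
    simp
  obtain ⟨t, htI, ht⟩ : ∃ t ∈ Ioo (0 : ℝ) (1 / 4),
      ∀ᵐ w : ℝ, ((a, t) : ℝ × ℝ) + av w ∉ (⋃ n, Aset u (ρ a) n)ᶜ := by
    by_contra hcon
    push Not at hcon
    apply hpos
    refine measure_mono_null ?_ (ae_iff.1 hf)
    intro t ht
    exact hcon t ht
  set x : ℝ × ℝ := (a, t) with hx
  have hinf : (U1 u (ρ a) x).Infinite := by
    rw [inf_iff]
    intro N
    by_contra hcon
    push Not at hcon
    -- the interval of parameters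
    have hN : (0 : ℝ) < 1 / ((N : ℝ) + 2) := by positivity
    have hN1 : 1 / ((N : ℝ) + 2) ≤ 1 / 2 := by
      apply one_div_le_one_div_of_le (by norm_num)
      linarith [(Nat.cast_nonneg N : (0 : ℝ) ≤ N)]
    have h1 : volume (Ioo (1 - a - 1 / ((N : ℝ) + 2)) (1 - a)) = 0 := by
      have h2 : Ioo (1 - a - 1 / ((N : ℝ) + 2)) (1 - a) ⊆
          {w | ¬ (x + av w ∉ (⋃ n, Aset u (ρ a) n)ᶜ)} ∪
          ⋃ n ∈ Ici N, {w : ℝ | w ∈ Ioo (0 : ℝ) 1 ∧ x + av w ∈ Aset u (ρ a) n} := by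
        intro w hw
        by_cases hwZ : x + av w ∈ (⋃ n, Aset u (ρ a) n)ᶜ
        · exact Or.inl (fun h => h hwZ)
        · right
          rw [mem_compl_iff, not_not, mem_iUnion] at hwZ
          obtain ⟨n, hn⟩ := hwZ
          have hcn : c (x + av w) = n := hsub n hn
          have hl := large_colour u ρ a t w N (c (x + av w)) hw.1 hw.2 (hcL _)
          rw [hcn] at hl
          simp only [mem_iUnion, exists_prop]
          exact ⟨n, hl, ⟨by linarith [hw.1, ha.1, ha.2], by linarith [hw.2, ha.1]⟩, hn⟩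
      refine measure_mono_null h2 (measure_union_null ht ?_)
      refine (measure_biUnion_null_iff (Set.to_countable _)).2 (fun n hn => ?_)
      have := hcon n hn
      simpa [U1] using this
    rw [Real.volume_Ioo] at h1
    have h3 : 1 - a - (1 - a - 1 / ((N : ℝ) + 2)) = 1 / ((N : ℝ) + 2) := by ring
    rw [h3, ENNReal.ofReal_eq_zero] at h1
    linarith
  have hcx := hcL x
  rw [LL_one u ρ x ha.1 ha.2 htI.1] at hcx
  have hxa : x.1 = a := rfl
  rw [hxa, fix_eq hinf] at hcx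
  have hne : {w : ℝ | w ∈ Ioo (0 : ℝ) 1 ∧ x + av w ∈ Aset u (ρ a) (c x)}.Nonempty :=
    nonempty_of_measure_ne_zero hcx
  obtain ⟨w, hw, hwA⟩ := hne
  exact ⟨x, x + av w, adj_av x w hw, (hsub _ hwA).symm⟩

theorem neg_category (u : ℕ → Set (ℝ × ℝ)) (hu : countableBasis (ℝ × ℝ) = range u)
    (ρ : ℝ → Code) (hρ : ∀ r, ∃ s ∈ Ioo (0 : ℝ) (1 / 4), ρ s = r)
    (c : ℝ × ℝ → ℕ) (hc : ∀ n, BaireMeasurableSet (c ⁻¹' {n}))
    (hcL : ∀ x, c x ∈ LL u ρ x) : ∃ x y, Adj x y ∧ c x = c y := by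
  choose O hO hcO using fun n => (hc n).residualEq_isOpen
  choose s hs using fun n => code_closed u hu (O n)ᶜ (hO n).isClosed_compl
  obtain ⟨a, ha, har⟩ := hρ (fun n _ => s n)
  have hOs : ∀ n, Oset u (ρ a) n = O n := by
    intro n
    unfold Oset
    rw [har]
    simp only [hs, compl_compl]
  have hR : {y : ℝ × ℝ | ∀ n, (y ∈ c ⁻¹' {n} ↔ y ∈ O n)} ∈ residual (ℝ × ℝ) := by
    have : ∀ n, ∀ᶠ y in residual (ℝ × ℝ), (y ∈ c ⁻¹' {n} ↔ y ∈ O n) := fun n =>
      (hcO n).mem_iff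
    exact eventually_countable_forall.2 this
  have hk := ku_arc _ hR a
  obtain ⟨t, htI, ht⟩ := (dense_of_mem_residual hk).inter_open_nonempty (Ioo (-1 : ℝ) 0)
    isOpen_Ioo (nonempty_Ioo.2 (by norm_num))
  set x : ℝ × ℝ := (a, t) with hx
  have ht' : {w | x + av w ∈ {y : ℝ × ℝ | ∀ n, (y ∈ c ⁻¹' {n} ↔ y ∈ O n)}} ∈ residual ℝ := ht
  have hinf : (U2 u (ρ a) x).Infinite := by
    rw [inf_iff]
    intro N
    have hN : (0 : ℝ) < 1 / ((N : ℝ) + 2) := by positivity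
    have hN1 : 1 / ((N : ℝ) + 2) ≤ 1 / 2 := by
      apply one_div_le_one_div_of_le (by norm_num)
      linarith [(Nat.cast_nonneg N : (0 : ℝ) ≤ N)]
    obtain ⟨w, hw, hwR⟩ := (dense_of_mem_residual ht').inter_open_nonempty
      (Ioo (1 - a - 1 / ((N : ℝ) + 2)) (1 - a)) isOpen_Ioo (nonempty_Ioo.2 (by linarith))
    have h1 : x + av w ∈ O (c (x + av w)) := (hwR _).1 rfl
    have hl := large_colour u ρ a t w N (c (x + av w)) hw.1 hw.2 (hcL _)
    refine ⟨c (x + av w), hl, w, ⟨by linarith [hw.1, ha.1, ha.2], by linarith [hw.2, ha.1]⟩, ?_⟩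
    rw [hOs]
    exact h1
  have hcx := hcL x
  rw [LL_two u ρ x ha.1 ha.2 htI.2.le] at hcx
  have hxa : x.1 = a := rfl
  rw [hxa, fix_eq hinf] at hcx
  obtain ⟨w0, hw0, hw0O⟩ := hcx
  rw [hOs] at hw0O
  have hopen : IsOpen (Ioo (0 : ℝ) 1 ∩ (fun w => x + av w) ⁻¹' (O (c x))) :=
    isOpen_Ioo.inter ((hO _).preimage (continuous_const.add continuous_av))
  obtain ⟨w, ⟨hw, hwO⟩, hwR⟩ := (dense_of_mem_residual ht').inter_open_nonempty _ hopen
    ⟨w0, hw0, hw0O⟩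
  have h5 : c (x + av w) = c x := (hwR (c x)).2 hwO
  exact ⟨x, x + av w, adj_av x w hw, h5.symm⟩

theorem nat_lists : ∃ L : ℝ × ℝ → Set ℕ, (∀ x, (L x).Infinite) ∧
    (∀ n, MeasurableSet {x | n ∈ L x}) ∧
    (∀ c : ℝ × ℝ → ℕ, (∀ n, NullMeasurableSet (c ⁻¹' {n}) volume) → (∀ x, c x ∈ L x) →
      ∃ x y, Adj x y ∧ c x = c y) ∧
    (∀ c : ℝ × ℝ → ℕ, (∀ n, BaireMeasurableSet (c ⁻¹' {n})) → (∀ x, c x ∈ L x) →
      ∃ x y, Adj x y ∧ c x = c y) := by
  have hcount : (countableBasis (ℝ × ℝ)).Countable := countable_countableBasis _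
  have hne : (countableBasis (ℝ × ℝ)).Nonempty := by
    obtain ⟨U, hU, _, _⟩ := (isBasis_countableBasis (ℝ × ℝ)).exists_subset_of_mem_open
      (mem_univ (0 : ℝ × ℝ)) isOpen_univ
    exact ⟨U, hU⟩
  obtain ⟨u, hu⟩ := hcount.exists_eq_range hne
  have hopen : ∀ q, IsOpen (u q) := fun q =>
    isOpen_of_mem_countableBasis (by rw [hu]; exact mem_range_self q)
  obtain ⟨ρ, hρm, hρ⟩ := exists_rho
  exact ⟨LL u ρ, LL_infinite u ρ, measurable_LL u hopen ρ hρm, neg_measure u hu ρ hρ,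
    neg_category u hu ρ hρ⟩

end H52.ML
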