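import Mathlib
import Pool.Agent.H52.ML.Hash2
import Pool.Agent.H52.ML.Cat
import Pool.Agent.H52.ML.Neg

/-!
# Transfer to the Euclidean plane
-/

set_option autoImplicit false

open MeasureTheory Set Filter TopologicalSpace
open scoped ENNReal Topology

noncomputable section

namespace H52.ML

/-- the Euclidean plane -/
abbrev Pl : Type := EuclideanSpace ℝ (Fin 2)

/-- coordinates -/
def co : Pl ≃ₜ ℝ × ℝ where
  toFun x := (x 0, x 1)
  invFun p := WithLp.toLp 2 ![p.1, p.2]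
  left_inv x := by
    ext i
    fin_cases i <;> rfl
  right_inv p := rfl
  continuous_toFun := by fun_prop
  continuous_invFun := by
    apply (PiLp.continuous_toLp 2 _).comp
    refine continuous_pi (fun i => ?_)
    fin_cases i
    · exact continuous_fst
    · exact continuous_snd

theorem co_mp : MeasurePreserving co volume volume :=
  (volume_preserving_finTwoArrow ℝ).comp
    (EuclideanSpace.volume_preserving_symm_measurableEquiv_toLp (Fin 2))

theorem co_symm_mp : MeasurePreserving co.symm volume volume :=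
  MeasurePreserving.symm co.toMeasurableEquiv co_mp

theorem dist_iff (x y : Pl) : dist x y = 1 ↔ Adj (co x) (co y) := by
  have h1 : dist x y = Real.sqrt ((x 0 - y 0) ^ 2 + (x 1 - y 1) ^ 2) := by
    rw [EuclideanSpace.dist_eq, Fin.sum_univ_two]
    simp only [Real.dist_eq, sq_abs]
  rw [h1, Real.sqrt_eq_one]
  rfl

/-- a colouring of the plane with sixteen colours -/
def hc (x : ℝ × ℝ) : ℕ := (⌊2 * x.1⌋ % 4).toNat + 4 * (⌊2 * x.2⌋ % 4).toNat

theorem measurable_hc : Measurable hc := by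
  have h1 : Measurable (fun x : ℝ × ℝ => ⌊2 * x.1⌋) := by
    apply Int.measurable_floor.comp
    fun_prop
  have h2 : Measurable (fun x : ℝ × ℝ => ⌊2 * x.2⌋) := by
    apply Int.measurable_floor.comp
    fun_prop
  have h3 : Measurable (fun n : ℤ => (n % 4).toNat) := Measurable.of_discrete
  exact (h3.comp h1).add ((h3.comp h2).const_mul 4)

theorem floor_aux (a b : ℝ) (h : ⌊2 * a⌋ % 4 = ⌊2 * b⌋ % 4) (hab : (a - b) ^ 2 ≤ 1) :
    (a - b) ^ 2 < 1 / 4 := by
  have h1 := Int.floor_le (2 * a)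
  have h2 := Int.lt_floor_add_one (2 * a)
  have h3 := Int.floor_le (2 * b)
  have h4 := Int.lt_floor_add_one (2 * b)
  have h5 : |a - b| ≤ 1 := (sq_le_one_iff_abs_le_one _).1 hab
  obtain ⟨h6, h7⟩ := abs_le.1 h5
  have h8 : ⌊2 * a⌋ - ⌊2 * b⌋ < 3 ∧ -3 < ⌊2 * a⌋ - ⌊2 * b⌋ := by
    constructor
    · have : ((⌊2 * a⌋ - ⌊2 * b⌋ : ℤ) : ℝ) < 3 := by push_cast; linarith
      exact_mod_cast this
    · have : ((-3 : ℤ) : ℝ) < ((⌊2 * a⌋ - ⌊2 * b⌋ : ℤ) : ℝ) := by push_cast; linarith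
      exact_mod_cast this
  have h9 : ⌊2 * a⌋ = ⌊2 * b⌋ := by omega
  rw [h9] at h1 h2
  have h10 : |a - b| < 1 / 2 := by
    rw [abs_lt]
    constructor <;> linarith
  have h11 := sq_lt_sq' (by linarith [(abs_lt.1 h10).1]) (abs_lt.1 h10).2
  linarith

theorem hc_adj {x y : ℝ × ℝ} (h : Adj x y) : hc x ≠ hc y := by
  intro he
  unfold hc at he
  have e1 : ⌊2 * x.1⌋ % 4 = ⌊2 * y.1⌋ % 4 := by omega
  have e2 : ⌊2 * x.2⌋ % 4 = ⌊2 * y.2⌋ % 4 := by omega
  unfold Adj at h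
  have h1 := floor_aux _ _ e1 (by nlinarith [sq_nonneg (x.2 - y.2)])
  have h2 := floor_aux _ _ e2 (by nlinarith [sq_nonneg (x.1 - y.1)])
  linarith

theorem hc_dist {x y : Pl} (h : dist x y = 1) : hc (co x) ≠ hc (co y) := hc_adj ((dist_iff x y).1 h)

/-- negative, natural lists -/
theorem plane_neg : ∃ L : Pl → Set ℕ, (∀ x, (L x).Infinite) ∧
    (∀ n, MeasurableSet {x | n ∈ L x}) ∧
    ∀ c : Pl → ℕ, (∀ x, c x ∈ L x) →
      (∀ n, NullMeasurableSet (c ⁻¹' {n}) volume) ∨ (∀ n, BaireMeasurableSet (c ⁻¹' {n})) →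
      ∃ x y, dist x y = 1 ∧ c x = c y := by
  obtain ⟨L, h1, h2, h3, h4⟩ := nat_lists
  refine ⟨fun x => L (co x), fun x => h1 _, fun n => co.continuous.measurable (h2 n), ?_⟩
  intro c hcL hc
  have hcL' : ∀ x, (c ∘ co.symm) x ∈ L x := by
    intro x
    have := hcL (co.symm x)
    simpa using this
  have key : ∃ x y, Adj x y ∧ (c ∘ co.symm) x = (c ∘ co.symm) y := by
    rcases hc with hc | hc
    · refine h3 _ (fun n => ?_) hcL'
      exact (hc n).preimage co_symm_mp.quasiMeasurePreserving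
    · refine h4 _ (fun n => ?_) hcL'
      exact (hc n).preimage co.symm.continuous co.symm.isOpenMap
  obtain ⟨x, y, hxy, hc⟩ := key
  refine ⟨co.symm x, co.symm y, ?_, hc⟩
  rw [dist_iff]
  simpa using hxy

/-- positive, off a null set -/
theorem plane_null (Y : Type) [MeasurableSpace Y] [MeasurableSpace.CountablySeparated Y]
    (g : ℕ → Pl → Y) (hg : ∀ i, Measurable (g i))
    (hinj : ∀ x, Function.Injective (fun i => g i x)) :
    ∃ (ι : Pl → ℕ) (Z : Set Pl), Measurable ι ∧ MeasurableSet Z ∧ volume Z = 0 ∧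
      ∀ x ∉ Z, ∀ y ∉ Z, dist x y = 1 → g (ι x) x ≠ g (ι y) y := by
  obtain ⟨ι, Z, h1, h2, h3, h4⟩ := choice_ae (volume : Measure Pl) g hg hinj
    (fun x => hc (co x)) (measurable_hc.comp co.continuous.measurable)
  exact ⟨ι, Z, h1, h2, h3, fun x hx y hy hxy => h4 x hx y hy (hc_dist hxy)⟩

/-- positive, natural lists, off a null and meagre set -/
theorem plane_nat (L : Pl → Set ℕ) (hinf : ∀ x, (L x).Infinite)
    (hL : ∀ n, MeasurableSet {x | n ∈ L x}) :
    ∃ (c : Pl → ℕ) (Z : Set Pl), Measurable c ∧ MeasurableSet Z ∧ volume Z = 0 ∧ IsMeagre Z ∧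
      (∀ x, c x ∈ L x) ∧ ∀ x ∉ Z, ∀ y ∉ Z, dist x y = 1 → c x ≠ c y := by
  obtain ⟨c, Z, h1, h2, h3, h4, h5, h6⟩ := choice_nat (volume : Measure Pl) L hinf hL
    (fun x => hc (co x)) (measurable_hc.comp co.continuous.measurable)
  exact ⟨c, Z, h1, h2, h3, h4, h5, fun x hx y hy hxy => h6 x hx y hy (hc_dist hxy)⟩

/-- negative, lists of reals -/
theorem plane_real : ∃ g : ℕ → Pl → ℝ, (∀ j, Measurable (g j)) ∧
    (∀ x, Function.Injective (fun j => g j x)) ∧
    ∀ (ι : Pl → ℕ) (Z : Set Pl), (∀ n, BaireMeasurableSet (ι ⁻¹' {n})) → IsMeagre Z →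
      ∃ x ∉ Z, ∃ y ∉ Z, dist x y = 1 ∧ g (ι x) x = g (ι y) y := by
  obtain ⟨g, h1, h2, h3⟩ := real_lists
  refine ⟨fun j x => g j (co x), fun j => (h1 j).comp co.continuous.measurable,
    fun x => h2 _, ?_⟩
  intro ι Z hι hZ
  obtain ⟨x, hx, y, hy, hxy, hg⟩ := h3 (ι ∘ co.symm) (co.symm ⁻¹' Z)
    (fun n => (hι n).preimage co.symm.continuous co.symm.isOpenMap)
    (hZ.preimage_of_isOpenMap co.symm.continuous co.symm.isOpenMap)
  refine ⟨co.symm x, hx, co.symm y, hy, ?_, ?_⟩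
  · rw [dist_iff]
    simpa using hxy
  · simpa using hg

end H52.ML
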